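import Mathlib

/-!
# Littlewood's conjecture over `F((1/X))`: definitions and Frobenius

`LaurentSeries F` is used for `F((1/X))`: `θ.coeff i` is the coefficient of `X ^ (-i)`.
-/

set_option autoImplicit false

namespace Pool.Agent.FZL

open Polynomial

/-- The embedding of the polynomials in `X` into `F((1/X))`. -/
noncomputable def emb {F : Type} [Field F] : F[X] →ₐ[F] LaurentSeries F :=
  aeval (HahnSeries.single (-1 : ℤ) (1 : F))

open Classical in
/-- `|θ|` -/
noncomputable def size {F : Type} [Field F] (θ : LaurentSeries F) : ℝ :=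
  if θ = 0 then 0 else (2 : ℝ) ^ (-θ.order)

/-- the fractional part -/
def frac {F : Type} [Field F] (θ : LaurentSeries F) : LaurentSeries F where
  coeff i := if 1 ≤ i then θ.coeff i else 0
  isPWO_support' := θ.isPWO_support.mono (by
    intro i hi
    simp only [Function.mem_support, ne_eq, ite_eq_right_iff, Classical.not_imp] at hi
    exact hi.2)

/-- `‖θ‖` -/
noncomputable def nrm {F : Type} [Field F] (θ : LaurentSeries F) : ℝ := size (frac θ)

/-- `∏ |Q_k| * ‖∑ Q_k θ_k‖` -/
noncomputable def prd {F : Type} [Field F] {s : ℕ} (θ : Fin s → LaurentSeries F)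
    (Q : Fin s → F[X]) : ℝ :=
  (∏ m, size (emb (Q m))) * nrm (∑ m, emb (Q m) * θ m)

/-- `c(θ_1, ..., θ_s)` -/
noncomputable def cc {F : Type} [Field F] {s : ℕ} (θ : Fin s → LaurentSeries F) : ℝ :=
  ⨅ Q : {Q : Fin s → F[X] // ∀ m, Q m ≠ 0}, prd θ Q.1

variable {F : Type} [Field F]

/-! ### coefficients -/

theorem emb_monomial (n : ℕ) (a : F) : emb (monomial n a) = HahnSeries.single (-(n : ℤ)) a := by
  rw [emb, aeval_monomial, HahnSeries.single_pow, one_pow]
  rw [show (algebraMap F (LaurentSeries F)) a = HahnSeries.single 0 a by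
    rw [HahnSeries.algebraMap_apply', PowerSeries.algebraMap_apply, HahnSeries.ofPowerSeries_C]
    rfl, HahnSeries.single_mul_single]
  simp

theorem coeff_emb (Q : F[X]) (i : ℤ) :
    (emb Q).coeff i = if i ≤ 0 then Q.coeff (-i).toNat else 0 := by
  induction Q using Polynomial.induction_on' with
  | add p q hp hq =>
    rw [map_add, HahnSeries.coeff_add, hp, hq]
    split <;> simp
  | monomial n a =>
    rw [emb_monomial, HahnSeries.coeff_single, coeff_monomial]
    by_cases h : i ≤ 0
    · rw [if_pos h]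
      by_cases h2 : i = -(n : ℤ)
      · rw [if_pos h2, if_pos (by omega)]
      · rw [if_neg h2, if_neg (by omega)]
    · rw [if_neg h, if_neg (by omega)]

/-- `|x| ≤ 2 ^ (-n)` -/
def lo (n : ℤ) (x : LaurentSeries F) : Prop := ∀ i < n, x.coeff i = 0

theorem lo_iff {n : ℤ} {x : LaurentSeries F} : lo n x ↔ (n : WithTop ℤ) ≤ x.orderTop := by
  rw [HahnSeries.le_orderTop_iff_forall]
  simp [lo]

theorem lo.mono {m n : ℤ} {x : LaurentSeries F} (h : lo n x) (hmn : m ≤ n) : lo m x :=
  fun i hi => h i (by omega)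

theorem lo.mul {m n : ℤ} {x y : LaurentSeries F} (hx : lo m x) (hy : lo n y) :
    lo (m + n) (x * y) := by
  rw [lo_iff] at *
  rw [HahnSeries.orderTop_mul]
  push_cast
  exact add_le_add hx hy

theorem lo.add {n : ℤ} {x y : LaurentSeries F} (hx : lo n x) (hy : lo n y) : lo n (x + y) :=
  fun i hi => by rw [HahnSeries.coeff_add, hx i hi, hy i hi, add_zero]

theorem lo.neg {n : ℤ} {x : LaurentSeries F} (hx : lo n x) : lo n (-x) :=
  fun i hi => by rw [HahnSeries.coeff_neg, hx i hi, neg_zero]

theorem lo.sub {n : ℤ} {x y : LaurentSeries F} (hx : lo n x) (hy : lo n y) : lo n (x - y) := by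
  rw [sub_eq_add_neg]
  exact hx.add hy.neg

theorem lo_zero (n : ℤ) : lo n (0 : LaurentSeries F) := fun _ _ => rfl

theorem lo_one : lo 0 (1 : LaurentSeries F) := by
  intro i hi
  rw [HahnSeries.coeff_one, if_neg (by omega)]

theorem lo.pow {n : ℤ} {x : LaurentSeries F} (hx : lo n x) (k : ℕ) : lo (k * n) (x ^ k) := by
  induction k with
  | zero => simpa using lo_one
  | succ k ih =>
    rw [pow_succ]
    have := ih.mul hx
    convert this using 1
    push_cast
    ring

theorem lo_emb {Q : F[X]} {n : ℕ} (h : Q.natDegree ≤ n) : lo (-(n : ℤ)) (emb Q) := by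
  intro i hi
  rw [coeff_emb]
  split
  · exact coeff_eq_zero_of_natDegree_lt (by omega)
  · rfl

theorem lo_emb' (Q : F[X]) : lo (-(Q.natDegree : ℤ)) (emb Q) := lo_emb le_rfl

theorem emb_injective : Function.Injective (emb (F := F)) := by
  rw [injective_iff_map_eq_zero]
  intro Q hQ
  ext n
  have := congrArg (fun x : LaurentSeries F => x.coeff (-(n : ℤ))) hQ
  simpa [coeff_emb] using this

theorem emb_eq_zero {Q : F[X]} (h : emb Q = 0) : Q = 0 := emb_injective (by rw [h, map_zero])

theorem emb_eq_zero_of_lo {Q : F[X]} (h : lo 1 (emb Q)) : Q = 0 := by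
  ext n
  have := h (-(n : ℤ)) (by omega)
  simpa [coeff_emb] using this

theorem order_emb {Q : F[X]} (hQ : Q ≠ 0) : (emb Q).order = -(Q.natDegree : ℤ) := by
  refine le_antisymm (HahnSeries.order_le_of_coeff_ne_zero ?_) ?_
  · rw [coeff_emb, if_pos (by omega)]
    simpa using hQ
  · have h0 : emb Q ≠ 0 := fun h => hQ (emb_eq_zero h)
    exact (HahnSeries.le_order_iff_forall h0).2 (lo_emb' Q)

theorem size_emb {Q : F[X]} (hQ : Q ≠ 0) : size (emb Q) = 2 ^ Q.natDegree := by
  rw [size, if_neg fun h => hQ (emb_eq_zero h), order_emb hQ, neg_neg, zpow_natCast]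

/-- every series is a polynomial plus a fractional part -/
theorem exists_emb (x : LaurentSeries F) : ∃ P : F[X], lo 1 (x - emb P) := by
  have hfin : (x.support ∩ Set.Iic 0).Finite := by
    have h1 : BddBelow x.support := by
      by_cases hx : x = 0
      · rw [hx]; simp
      · refine ⟨x.order, fun i hi => ?_⟩
        exact HahnSeries.order_le_of_coeff_ne_zero hi
    obtain ⟨b, hb⟩ := h1
    exact (Set.finite_Icc b 0).subset fun i hi => ⟨hb hi.1, hi.2⟩
  refine ⟨∑ i ∈ hfin.toFinset, monomial (-i).toNat (x.coeff i), fun i hi => ?_⟩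
  rw [HahnSeries.coeff_sub, coeff_emb, if_pos (by omega), finsetSum_coeff]
  by_cases hx : x.coeff i = 0
  · rw [hx, Finset.sum_eq_zero, sub_zero]
    intro j hj
    rw [coeff_monomial]
    split_ifs with h
    · rw [Set.Finite.mem_toFinset] at hj
      have : j = i := by
        have := hj.2
        simp only [Set.mem_Iic] at this
        omega
      rw [this, hx]
    · rfl
  · rw [Finset.sum_eq_single i]
    · simp
    · intro j hj hji
      rw [Set.Finite.mem_toFinset] at hj
      have := hj.2
      simp only [Set.mem_Iic] at this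
      rw [coeff_monomial, if_neg (by omega)]
    · intro h
      exfalso
      apply h
      rw [Set.Finite.mem_toFinset]
      exact ⟨hx, by simp only [Set.mem_Iic]; omega⟩

/-! ### the norm -/

/-- the coefficients of `X ^ (-1), ..., X ^ (-L)` vanish -/
def V (x : LaurentSeries F) (L : ℕ) : Prop := ∀ i : ℤ, 1 ≤ i → i ≤ L → x.coeff i = 0

theorem V.mono {x : LaurentSeries F} {L L' : ℕ} (h : V x L') (hL : L ≤ L') : V x L :=
  fun i h1 h2 => h i h1 (by omega)

theorem V_iff {x : LaurentSeries F} {L : ℕ} : V x L ↔ ∃ P : F[X], lo (L + 1) (x - emb P) := by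
  constructor
  · intro h
    obtain ⟨P, hP⟩ := exists_emb x
    refine ⟨P, fun i hi => ?_⟩
    rcases lt_or_ge i 1 with h1 | h1
    · exact hP i h1
    · rw [HahnSeries.coeff_sub, h i h1 (by omega), coeff_emb, if_neg (by omega), sub_zero]
  · rintro ⟨P, hP⟩ i h1 h2
    have := hP i (by omega)
    rwa [HahnSeries.coeff_sub, coeff_emb, if_neg (by omega), sub_zero] at this

theorem coeff_frac (x : LaurentSeries F) (i : ℤ) :
    (frac x).coeff i = if 1 ≤ i then x.coeff i else 0 := rfl

theorem nrm_nonneg (x : LaurentSeries F) : 0 ≤ nrm x := by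
  unfold nrm size
  split <;> positivity

theorem nrm_cases (x : LaurentSeries F) : (nrm x = 0 ∧ ∀ L, V x L) ∨
    ∃ L : ℕ, nrm x = (2 : ℝ) ^ (-((L : ℤ) + 1)) ∧ V x L ∧ ¬ V x (L + 1) := by
  by_cases h : frac x = 0
  · left
    refine ⟨by rw [nrm, size, if_pos h], fun L i h1 h2 => ?_⟩
    have := congrArg (fun x : LaurentSeries F => x.coeff i) h
    simpa [coeff_frac, h1] using this
  · right
    have h1 : 1 ≤ (frac x).order := by
      refine (HahnSeries.le_order_iff_forall h).2 fun i hi => ?_
      rw [coeff_frac, if_neg (by omega)]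
    obtain ⟨L, hL⟩ : ∃ L : ℕ, (frac x).order = L + 1 := ⟨((frac x).order - 1).toNat, by omega⟩
    refine ⟨L, by rw [nrm, size, if_neg h, hL], fun i hi1 hi2 => ?_, fun hV => ?_⟩
    · have := HahnSeries.coeff_eq_zero_of_lt_order (x := frac x) (i := i) (by omega)
      rwa [coeff_frac, if_pos hi1] at this
    · have h2 := hV (L + 1) (by omega) (by push_cast; omega)
      have h3 : (frac x).coeff (frac x).order = 0 := by
        rw [hL, coeff_frac, if_pos (by omega), h2]
      exact h (HahnSeries.coeff_order_eq_zero.1 h3)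

theorem nrm_le {x : LaurentSeries F} {L : ℕ} (h : V x L) : nrm x ≤ (2 : ℝ) ^ (-((L : ℤ) + 1)) := by
  rcases nrm_cases x with ⟨h1, -⟩ | ⟨L', h1, -, h3⟩
  · rw [h1]; positivity
  · rw [h1]
    refine zpow_le_zpow_right₀ (by norm_num) ?_
    by_contra hc
    exact h3 (h.mono (by omega))

end Pool.Agent.FZL
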