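import Pool.Agent.Lib_helper55.FZL.Partner

/-!
# The gap, tuples of every length, and pairs with the same trace
-/

set_option autoImplicit false

namespace Pool.Agent.FZL

open Polynomial

variable {F : Type} [Field F]

theorem gap {s r : ℕ} (hr : r ≠ 0) {θ : Fin s → LaurentSeries F} {E : ℝ} (hE : 0 < E)
    (h : cc θ ^ r * E < 1) : ∃ Q : Fin s → F[X], (∀ m, Q m ≠ 0) ∧ prd θ Q ^ r * E < 1 := by
  by_contra hcon
  push Not at hcon
  have : Nonempty {Q : Fin s → F[X] // ∀ m, Q m ≠ 0} := ⟨⟨fun _ => 1, fun _ => one_ne_zero⟩⟩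
  set κ : ℝ := (E⁻¹) ^ ((r : ℝ)⁻¹) with hκ
  have hκr : κ ^ r = E⁻¹ := Real.rpow_inv_natCast_pow (by positivity) hr
  have hκ0 : 0 ≤ κ := by positivity
  have h1 : κ ≤ cc θ := by
    refine le_ciInf fun Q => ?_
    have h2 := hcon Q.1 Q.2
    refine le_of_pow_le_pow_left₀ hr (prd_nonneg _ _) ?_
    rw [hκr, inv_eq_one_div, div_le_iff₀ hE]
    exact h2
  have h2 : 1 ≤ cc θ ^ r * E := by
    calc (1 : ℝ) = κ ^ r * E := by rw [hκr, inv_mul_cancel₀ hE.ne']
      _ ≤ cc θ ^ r * E := mul_le_mul_of_nonneg_right (pow_le_pow_left₀ hκ0 h1 r) hE.le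
  linarith

/-! ### membership -/

theorem affine_quadratic {p : ℕ} [Fact p.Prime] [CharP F p] {a b c : F[X]} {θ : LaurentSeries F}
    (ha : a ≠ 0) (hθ : emb a * θ ^ 2 + emb b * θ + emb c = 0) (hD : b ^ 2 - 4 * a * c ≠ 0)
    (t : ℕ) : Affine (p ^ t) θ := by
  obtain ⟨A, B, hA, hAB, -⟩ := exists_frob (p := p) (scaled_quadratic hθ) t
  have hD' : (-b) ^ 2 + 4 * (-(a * c)) = b ^ 2 - 4 * a * c := by ring
  rw [hD'] at hA
  refine ⟨a ^ p ^ t, A * a, B, pow_ne_zero _ ha, mul_ne_zero (ne_zero_of_sq hD hA) ha, ?_⟩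
  rw [map_pow, ← mul_pow, hAB, map_mul]
  ring

theorem affine_radical {p d t : ℕ} [Fact p.Prime] [CharP F p] (hd : d ∣ p ^ t - 1)
    {U W : F[X]} {θ : LaurentSeries F} (hU : U ≠ 0) (hW : W ≠ 0)
    (hθ : emb U * θ ^ d = emb W) : Affine (p ^ t) θ := by
  obtain ⟨k, hk⟩ := hd
  have h1 : 1 ≤ p ^ t := Nat.one_le_pow _ _ (Fact.out : p.Prime).pos
  refine ⟨U ^ k, W ^ k, 0, pow_ne_zero _ hU, pow_ne_zero _ hW, ?_⟩
  have h2 : p ^ t = d * k + 1 := by omega
  rw [h2, pow_succ, pow_mul, map_pow, map_pow, ← hθ, map_zero, mul_pow]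
  ring

/-! ### tuples of every length -/

theorem tuples (F : Type) [Field F] (p : ℕ) [Fact p.Prime] [CharP F p] (s : ℕ) :
    ∃ (θ : Fin (s + 1) → LaurentSeries F) (h f : Fin (s + 1) → F[X]),
      (∀ m, θ m ^ 2 = emb (h m) * θ m + emb (f m)) ∧ (∀ m, h m ^ 2 + 4 * f m ≠ 0) ∧
      Indep θ ∧ (0 < s → Saving θ) := by
  induction s with
  | zero =>
    have hX0 : (emb (X ^ 2) : LaurentSeries F) ≠ 0 := fun h =>
      pow_ne_zero 2 X_ne_zero (emb_eq_zero h)
    obtain ⟨y, hy, -⟩ := small_root (F := F) (W := emb (X ^ 2)) (ρ := emb X) hX0 (T := 2)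
      (m := -1) (by rw [order_emb (pow_ne_zero 2 X_ne_zero), natDegree_X_pow])
      (by have := lo_emb' (X : F[X]); rwa [natDegree_X] at this) (by norm_num)
    have hy' : y ^ 2 = emb (X ^ 2 * 1) * y + emb (X - X ^ 2 * 0) := by
      rw [mul_one, mul_zero, sub_zero]
      exact hy
    have hI : Indep (Fin.cons y Fin.elim0 : Fin 1 → LaurentSeries F) := by
      refine indep_cons (p := p) (t := 1) one_pos (θ := Fin.elim0) (A := Fin.elim0)
        (B := Fin.elim0) (fun m => m.elim0) ?_ prime_X (fun m => m.elim0) hy'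
      intro u v h
      rw [Fin.sum_univ_zero, add_zero] at h
      exact ⟨emb_eq_zero h, fun m => m.elim0⟩
    refine ⟨Fin.cons y Fin.elim0, fun _ => X ^ 2, fun _ => X, ?_, ?_, hI, fun h => ?_⟩
    · intro m
      rw [Fin.fin_one_eq_zero m, Fin.cons_zero]
      exact hy
    · intro m h
      have h1 : ((X ^ 2 : F[X]) ^ 2 + 4 * X).natDegree = 4 := by
        have h2 : (4 * X : F[X]).natDegree ≤ 1 := by
          rw [show (4 : F[X]) = C 4 by rw [map_ofNat]]
          exact (natDegree_C_mul_le _ _).trans natDegree_X_le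
        rw [← pow_mul, natDegree_add_eq_left_of_natDegree_lt, natDegree_X_pow]
        rw [natDegree_X_pow]
        omega
      rw [h] at h1
      simp at h1
    · omega
  | succ s ih =>
    obtain ⟨θ, h, f, h1, h2, h3, -⟩ := ih
    obtain ⟨H, G, y, hy, hyD, -, hyI, hyS⟩ := partner_affine (p := p) (t := 1) one_pos (θ := θ)
      (fun m => affine_quadratic (a := 1) (b := -h m) (c := -f m) one_ne_zero (by
        rw [map_one, map_neg, map_neg]
        linear_combination h1 m) (by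
        have := h2 m
        ring_nf at this ⊢
        exact this) 1) h3 0 0
    exact ⟨Fin.cons y θ, Fin.cons H h, Fin.cons G f, Fin.cases hy h1, Fin.cases hyD h2, hyI,
      fun _ => hyS⟩

/-! ### the same trace -/

theorem small_or {h : F[X]} (hh : 0 < h.natDegree) {a : F} (ha : a ≠ 0) {θ : LaurentSeries F}
    (hθ : θ ^ 2 = emb h * θ + emb (C a)) :
    lo h.natDegree θ ∨ lo h.natDegree (emb h - θ) := by
  have h0 : θ * (emb h - θ) = emb (C (-a)) := by
    rw [C_neg, map_neg]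
    linear_combination -hθ
  have hCa : (C (-a) : F[X]) ≠ 0 := by
    rw [Ne, C_eq_zero]
    exact neg_ne_zero.2 ha
  have hne : θ * (emb h - θ) ≠ 0 := by
    rw [h0]
    exact fun h => hCa (emb_eq_zero h)
  have hθ0 : θ ≠ 0 := left_ne_zero_of_mul hne
  have hθ1 : emb h - θ ≠ 0 := right_ne_zero_of_mul hne
  have ho : θ.order + (emb h - θ).order = 0 := by
    rw [← HahnSeries.order_mul hθ0 hθ1, h0, order_emb hCa, natDegree_C]
    rfl
  have hh0 : h ≠ 0 := by
    rintro rfl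
    simp at hh
  have hc : (emb h).coeff (-(h.natDegree : ℤ)) ≠ 0 := by
    rw [coeff_emb, if_pos (by omega)]
    simpa using hh0
  have key : ∀ x y : LaurentSeries F, x ≠ 0 → x + y = emb h → x.order + y.order = 0 →
      1 ≤ x.order → lo h.natDegree x := by
    intro x y hx hxy hxyo hxo
    have h1 : y.coeff (-(h.natDegree : ℤ)) ≠ 0 := by
      have h2 : (x + y).coeff (-(h.natDegree : ℤ)) ≠ 0 := by rw [hxy]; exact hc
      rwa [HahnSeries.coeff_add, HahnSeries.coeff_eq_zero_of_lt_order (x := x) (by omega),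
        zero_add] at h2
    have h3 := HahnSeries.order_le_of_coeff_ne_zero h1
    intro i hi
    exact HahnSeries.coeff_eq_zero_of_lt_order (by omega)
  rcases lt_trichotomy θ.order 0 with h1 | h1 | h1
  · right
    exact key _ θ hθ1 (by ring) (by omega) (by omega)
  · exfalso
    apply hc
    have h2 : emb h = θ + (emb h - θ) := by ring
    rw [h2, HahnSeries.coeff_add, HahnSeries.coeff_eq_zero_of_lt_order (x := θ) (by omega),
      HahnSeries.coeff_eq_zero_of_lt_order (x := emb h - θ) (by omega), zero_add]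
  · left
    exact key _ (emb h - θ) hθ0 (by ring) ho (by omega)

theorem small_form {h : F[X]} (hh : 0 < h.natDegree) {a : F} (ha : a ≠ 0) {θ : LaurentSeries F}
    (hθ : θ ^ 2 = emb h * θ + emb (C a)) : ∃ (e P : F[X]) (ζ : LaurentSeries F), IsUnit e ∧
      ζ = emb e * θ + emb P ∧ ζ ^ 2 = emb h * ζ + emb (C a) ∧ lo h.natDegree ζ := by
  rcases small_or hh ha hθ with h1 | h1
  · exact ⟨1, 0, θ, isUnit_one, by simp, hθ, h1⟩
  · refine ⟨-1, h, emb h - θ, isUnit_one.neg, ?_, ?_, h1⟩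
    · rw [map_neg, map_one]
      ring
    · linear_combination hθ

theorem same_trace {p : ℕ} [Fact p.Prime] [CharP F p] {h : F[X]} (hh : 0 < h.natDegree)
    {a b : F} (ha : a ≠ 0) (hb : b ≠ 0) {θ₁ θ₂ : LaurentSeries F}
    (h1 : θ₁ ^ 2 = emb h * θ₁ + emb (C a)) (h2 : θ₂ ^ 2 = emb h * θ₂ + emb (C b)) :
    Saving ![θ₁, θ₂] := by
  obtain ⟨e₁, P₁, ζ₁, he₁, hζ₁, hq₁, hl₁⟩ := small_form hh ha h1
  obtain ⟨e₂, P₂, ζ₂, he₂, hζ₂, hq₂, hl₂⟩ := small_form hh hb h2
  have hh0 : h ≠ 0 := by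
    rintro rfl
    simp at hh
  have heh : emb h ≠ 0 := fun h => hh0 (emb_eq_zero h)
  have hdisc : ∀ c : F, (h ^ 2 + 4 * C c).natDegree = 2 * h.natDegree := by
    intro c
    have h3 : (4 * C c : F[X]).natDegree = 0 := by
      rw [show (4 : F[X]) = C 4 by rw [map_ofNat], ← C_mul, natDegree_C]
    rw [natDegree_add_eq_left_of_natDegree_lt, natDegree_pow]
    rw [h3, natDegree_pow]
    omega
  have hdisc0 : ∀ c : F, h ^ 2 + 4 * C c ≠ 0 := by
    intro c h3
    have := hdisc c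
    rw [h3] at this
    simp at this
    omega
  have hp : 2 ≤ p := (Fact.out : p.Prime).two_le
  have hfr : ∀ (c : F) (θ : LaurentSeries F), θ ^ 2 = emb h * θ + emb (C c) →
      ∃ A B : F[X], A ≠ 0 ∧ A.natDegree = (p - 1) * h.natDegree ∧
        θ ^ p ^ 1 = emb A * θ + emb B := by
    intro c θ hθ
    obtain ⟨A, B, hA, hAB, -⟩ := exists_frob (p := p) hθ 1
    refine ⟨A, B, ne_zero_of_sq (hdisc0 c) hA, ?_, hAB⟩
    have h3 := congrArg natDegree hA
    rw [natDegree_pow, natDegree_pow, hdisc c, pow_one] at h3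
    have h4 : (p - 1) * (2 * h.natDegree) = 2 * ((p - 1) * h.natDegree) := by ring
    omega
  obtain ⟨A₁, B₁, hA₁, hd₁, hAB₁⟩ := hfr a θ₁ h1
  obtain ⟨A₂, B₂, hA₂, hd₂, hAB₂⟩ := hfr b θ₂ h2
  have hl : lo (3 * h.natDegree) (emb (C b) * ζ₁ - emb (C a) * ζ₂) := by
    have h3 : emb (C b) * ζ₁ - emb (C a) * ζ₂ =
        (emb h)⁻¹ * (emb (C b) * ζ₁ ^ 2 - emb (C a) * ζ₂ ^ 2) := by
      rw [hq₁, hq₂]
      field_simp
      ring
    rw [h3]
    have h4 : lo (h.natDegree : ℤ) (emb h)⁻¹ := by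
      have := lo_inv heh (n := -(h.natDegree : ℤ)) (by rw [order_emb hh0])
      rwa [neg_neg] at this
    have h5 : ∀ (c : F) (ζ : LaurentSeries F), lo h.natDegree ζ →
        lo (2 * h.natDegree) (emb (C c) * ζ ^ 2) := by
      intro c ζ hζ
      refine (lo_mul_emb (hζ.pow 2) (C c)).mono ?_
      rw [natDegree_C]
      push_cast
      omega
    refine (h4.mul ((h5 b _ hl₁).sub (h5 a _ hl₂))).mono ?_
    omega
  refine saving (t := 1) one_pos (A := ![A₁, A₂]) (B := ![B₁, B₂]) (Q := ![C b * e₁, -(C a * e₂)])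
    (L := 3 * h.natDegree - 1) ?_ ?_ ?_ ?_ ?_
  · simp [Fin.forall_fin_two, hA₁, hA₂]
  · simp only [Fin.forall_fin_two, Matrix.cons_val_zero, Matrix.cons_val_one]
    exact ⟨hAB₁, hAB₂⟩
  · simp [Fin.forall_fin_two, ha, hb, he₁.ne_zero, he₂.ne_zero]
  · rw [V_iff]
    refine ⟨-(C b * P₁) + C a * P₂, ?_⟩
    have h3 : ∑ m, emb (![C b * e₁, -(C a * e₂)] m) * ![θ₁, θ₂] m -
        emb (-(C b * P₁) + C a * P₂) = emb (C b) * ζ₁ - emb (C a) * ζ₂ := by
      rw [hζ₁, hζ₂]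
      simp only [Fin.sum_univ_two, Matrix.cons_val_zero, Matrix.cons_val_one, map_add, map_neg,
        map_mul]
      ring
    rw [h3]
    refine hl.mono ?_
    omega
  · have hu : ∀ e : F[X], IsUnit e → e.natDegree = 0 := fun e he => natDegree_eq_zero_of_isUnit he
    have hCu : ∀ (c : F), c ≠ 0 → IsUnit (C c) := fun c hc => isUnit_C.2 (isUnit_iff_ne_zero.2 hc)
    simp only [Fin.sum_univ_two, Matrix.cons_val_zero, Matrix.cons_val_one, natDegree_neg]
    rw [hu _ ((hCu b hb).mul he₁), hu _ ((hCu a ha).mul he₂), hd₁, hd₂, pow_one]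
    obtain ⟨r, hr⟩ : ∃ r, p - 1 = r + 1 := ⟨p - 2, by omega⟩
    obtain ⟨k, hk⟩ : ∃ k, h.natDegree = k + 1 := ⟨h.natDegree - 1, by omega⟩
    rw [hr, hk]
    have : 3 * (k + 1) - 1 + 1 = 3 * (k + 1) := by omega
    rw [this]
    nlinarith [Nat.zero_le (r * k)]

/-! ### independence -/

theorem eq_emb_of_integral {x : LaurentSeries F} (hx : (embR (F := F)).IsIntegralElem x)
    {u w : F[X]} (hw : w ≠ 0) (h : emb w * x = emb u) : ∃ S : F[X], x = emb S := by
  classical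
  obtain ⟨a, b, hab⟩ := isCoprime_div_gcd_div_gcd (p := u) (q := w) hw
  set g := gcd u w with hg
  have hg0 : g ≠ 0 := fun h0 => hw ((gcd_eq_zero_iff _ _).1 h0).2
  obtain ⟨u', hu'⟩ := gcd_dvd_left u w
  obtain ⟨w', hw'⟩ := gcd_dvd_right u w
  rw [← hg] at hu' hw'
  have hu1 : u / g = u' := by
    rw [hu']
    exact mul_div_cancel_left₀ _ hg0
  have hw1 : w / g = w' := by
    rw [hw']
    exact mul_div_cancel_left₀ _ hg0
  rw [hu1, hw1] at hab
  have hge : emb g ≠ 0 := fun h => hg0 (emb_eq_zero h)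
  have h1 : emb w' * x = emb u' := by
    rw [hu', hw', map_mul, map_mul, mul_assoc] at h
    exact mul_left_cancel₀ hge h
  by_cases hwu : IsUnit w'
  · obtain ⟨⟨w1, w2, h2, h3⟩, rfl⟩ := hwu
    refine ⟨w2 * u', ?_⟩
    rw [map_mul, ← h1, ← mul_assoc, ← map_mul]
    simp only
    rw [h3, map_one, one_mul]
  · exfalso
    have hmap : ∀ Q : F[X], (embR (F := F)).IsIntegralElem (emb Q) := fun Q =>
      (embR (F := F)).isIntegralElem_map
    refine not_integral_inv (z := emb a * x + emb b) hwu ?_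
      (((hmap a).mul _ hx).add _ (hmap b))
    have h2 : emb a * emb u' + emb b * emb w' = 1 := by
      rw [← map_mul, ← map_mul, ← map_add, hab, map_one]
    linear_combination h2 + emb a * h1

theorem irr_small {h : F[X]} (hh : 0 < h.natDegree) {a : F} (ha : a ≠ 0) {ζ : LaurentSeries F}
    (hζ : ζ ^ 2 = emb h * ζ + emb (C a)) (hl : lo h.natDegree ζ) : Irr ζ := by
  intro u v huv
  by_contra hv
  obtain ⟨S, hS⟩ := eq_emb_of_integral (integral_affine le_rfl hζ) hv huv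
  have h1 : S = 0 := emb_eq_zero_of_lo (by rw [← hS]; exact hl.mono (by omega))
  rw [hS, h1, map_zero, mul_zero, zero_add, zero_pow two_ne_zero] at hζ
  exact ha (C_eq_zero.1 (emb_eq_zero hζ.symm))

theorem indep_small {h : F[X]} (hh : 0 < h.natDegree) {a b : F} (ha : a ≠ 0) (hb : b ≠ 0)
    (hab : a ≠ b) {ζ₁ ζ₂ : LaurentSeries F} (h1 : ζ₁ ^ 2 = emb h * ζ₁ + emb (C a))
    (h2 : ζ₂ ^ 2 = emb h * ζ₂ + emb (C b)) (hl1 : lo h.natDegree ζ₁) (hl2 : lo h.natDegree ζ₂)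
    {u v w : F[X]} (huv : emb u + emb v * ζ₁ + emb w * ζ₂ = 0) : v = 0 ∧ w = 0 := by
  have i1 := irr_small hh ha h1 hl1
  have i2 := irr_small hh hb h2 hl2
  by_cases hv : v = 0
  · refine ⟨hv, i2 (-u) w ?_⟩
    rw [hv, map_zero, zero_mul, add_zero] at huv
    rw [map_neg]
    linear_combination huv
  by_cases hw : w = 0
  · refine ⟨i1 (-u) v ?_, hw⟩
    rw [hw, map_zero, zero_mul, add_zero] at huv
    rw [map_neg]
    linear_combination huv
  exfalso
  have h3 : emb (v * (2 * u + v * h + w * h)) * ζ₁ =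
      emb (-(u ^ 2 + v ^ 2 * C a + w * h * u - w ^ 2 * C b)) := by
    have e2 : emb (2 : F[X]) = (2 : LaurentSeries F) := map_ofNat emb 2
    simp only [map_neg, map_sub, map_add, map_mul, map_pow, e2]
    linear_combination (emb w ^ 2) * h2 + (-(emb v ^ 2)) * h1 +
      (emb u + emb v * ζ₁ - emb w * ζ₂ + emb w * emb h) * huv
  have h4 : 2 * u + v * h + w * h = 0 := (mul_eq_zero.1 (i1 _ _ h3)).resolve_left hv
  have h5 : emb w * (ζ₁ - ζ₂) ^ 2 = emb (2 * v * C a - u * h + w * (C a + C b)) := by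
    have e2 : emb (2 : F[X]) = (2 : LaurentSeries F) := map_ofNat emb 2
    have h6 : (2 : LaurentSeries F) * emb u + emb v * emb h + emb w * emb h = 0 := by
      rw [← e2, ← map_mul, ← map_mul, ← map_mul, ← map_add, ← map_add, h4, map_zero]
    simp only [map_sub, map_add, map_mul, e2]
    linear_combination (emb w + 2 * emb v) * h1 + emb w * h2 + (emb h - 2 * ζ₁) * huv + ζ₁ * h6
  have hz1 := integral_affine le_rfl h1
  have hz2 := integral_affine le_rfl h2
  have hs : (embR (F := F)).IsIntegralElem ((ζ₁ - ζ₂) ^ 2) := by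
    rw [sq]
    exact (hz1.sub _ hz2).mul _ (hz1.sub _ hz2)
  obtain ⟨S, hS⟩ := eq_emb_of_integral hs hw h5
  have h6 : S = 0 := by
    refine emb_eq_zero_of_lo ?_
    rw [← hS]
    refine ((hl1.sub hl2).pow 2).mono ?_
    push_cast
    omega
  rw [h6, map_zero] at hS
  have h7 : ζ₁ = ζ₂ := sub_eq_zero.1 (pow_eq_zero_iff two_ne_zero |>.1 hS)
  rw [h7, h2] at h1
  have h8 : emb (C b) = emb (C a) := by linear_combination h1
  exact hab (C_injective (emb_injective h8)).symm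

theorem indep_same_trace {h : F[X]} (hh : 0 < h.natDegree) {a b : F} (ha : a ≠ 0) (hb : b ≠ 0)
    (hab : a ≠ b) {θ₁ θ₂ : LaurentSeries F} (h1 : θ₁ ^ 2 = emb h * θ₁ + emb (C a))
    (h2 : θ₂ ^ 2 = emb h * θ₂ + emb (C b)) : Indep ![θ₁, θ₂] := by
  obtain ⟨e₁, P₁, ζ₁, he₁, hζ₁, hq₁, hl₁⟩ := small_form hh ha h1
  obtain ⟨e₂, P₂, ζ₂, he₂, hζ₂, hq₂, hl₂⟩ := small_form hh hb h2
  obtain ⟨f₁, hf₁⟩ := he₁.exists_right_inv
  obtain ⟨f₂, hf₂⟩ := he₂.exists_right_inv
  intro u v huv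
  simp only [Fin.sum_univ_two, Matrix.cons_val_zero, Matrix.cons_val_one] at huv
  have g₁ : emb e₁ * emb f₁ = 1 := by rw [← map_mul, hf₁, map_one]
  have g₂ : emb e₂ * emb f₂ = 1 := by rw [← map_mul, hf₂, map_one]
  have h3 : emb (u - v 0 * f₁ * P₁ - v 1 * f₂ * P₂) + emb (v 0 * f₁) * ζ₁ +
      emb (v 1 * f₂) * ζ₂ = 0 := by
    rw [hζ₁, hζ₂]
    simp only [map_sub, map_mul]
    linear_combination huv + (emb (v 0) * θ₁) * g₁ + (emb (v 1) * θ₂) * g₂
  obtain ⟨h4, h5⟩ := indep_small hh ha hb hab hq₁ hq₂ hl₁ hl₂ h3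
  have hf₁0 : f₁ ≠ 0 := by
    rintro rfl
    rw [mul_zero] at hf₁
    exact zero_ne_one hf₁
  have hf₂0 : f₂ ≠ 0 := by
    rintro rfl
    rw [mul_zero] at hf₂
    exact zero_ne_one hf₂
  have h6 : v 0 = 0 := (mul_eq_zero.1 h4).resolve_right hf₁0
  have h7 : v 1 = 0 := (mul_eq_zero.1 h5).resolve_right hf₂0
  rw [h6, h7, map_zero, zero_mul, zero_mul, add_zero, add_zero] at huv
  exact ⟨emb_eq_zero huv, by simp [Fin.forall_fin_two, h6, h7]⟩

end Pool.Agent.FZL
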