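import Pool.Agent.Lib_helper55.FZL.Law

/-!
# Quadratic irrationals and radicals are affine Frobenius elements
-/

set_option autoImplicit false

namespace Pool.Agent.FZL

open Polynomial

variable {F : Type} [Field F]

theorem two_ne_zero_of_odd {p k : ℕ} [Fact p.Prime] [CharP F p] (hk : p = 2 * k + 1) :
    (2 : F) ≠ 0 := by
  intro h0
  have h1 : ((2 : ℕ) : F) = 0 := by exact_mod_cast h0
  rw [CharP.cast_eq_zero_iff F p 2] at h1
  have := Nat.le_of_dvd (by norm_num) h1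
  have := (Fact.out : p.Prime).two_le
  omega

/-- Frobenius on a quadratic irrational -/
theorem exists_frob_one {p : ℕ} [Fact p.Prime] [CharP F p] {θ : LaurentSeries F} {h f : F[X]}
    (hθ : θ ^ 2 = emb h * θ + emb f) :
    ∃ A B : F[X], A ^ 2 = (h ^ 2 + 4 * f) ^ (p - 1) ∧ θ ^ p = emb A * θ + emb B ∧
      ∀ c : F[X], c ∣ h → c ∣ f → c ∣ B := by
  have := charP_laurent (F := F) p
  rcases (Fact.out : p.Prime).eq_two_or_odd' with rfl | hp
  · have h4 : (4 : F[X]) = 0 := by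
      have : (2 : F[X]) = 0 := CharTwo.two_eq_zero
      linear_combination 2 * this
    rw [h4, zero_mul, add_zero]
    exact ⟨h, f, by ring, hθ, fun c _ hf => hf⟩
  · obtain ⟨k, hk⟩ := hp
    have h2 : (2 : F) ≠ 0 := two_ne_zero_of_odd hk
    refine ⟨(h ^ 2 + 4 * f) ^ k, C (2⁻¹ : F) * (h ^ p - (h ^ 2 + 4 * f) ^ k * h), ?_, ?_, ?_⟩
    · rw [← pow_mul, hk]
      congr 1
      omega
    · have e1 : (2 * θ - emb h) ^ 2 = emb (h ^ 2 + 4 * f) := by
        have e0 : emb (4 : F[X]) = (4 : LaurentSeries F) := map_ofNat emb 4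
        rw [map_add, map_mul, map_pow, e0]
        linear_combination 4 * hθ
      have e2 : (2 * θ - emb h) ^ p = emb ((h ^ 2 + 4 * f) ^ k) * (2 * θ - emb h) := by
        rw [hk, pow_succ, pow_mul, e1, map_pow]
      rw [sub_pow_char, mul_pow] at e2
      have e3 : (2 : LaurentSeries F) ^ p = 2 := by
        have := add_pow_char (1 : LaurentSeries F) 1 p
        rw [one_pow] at this
        rw [← one_add_one_eq_two]
        exact this
      rw [e3] at e2
      have e4 : emb (C (2⁻¹ : F)) * 2 = (1 : LaurentSeries F) := by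
        have e0 : emb (2 : F[X]) = (2 : LaurentSeries F) := map_ofNat emb 2
        rw [← e0, ← map_mul, ← map_one emb]
        congr 1
        rw [show (2 : F[X]) = C (2 : F) from (map_ofNat C 2).symm, ← C_mul, inv_mul_cancel₀ h2,
          C_1]
      rw [map_mul, map_sub, map_mul emb _ h, map_pow emb h]
      linear_combination (emb (C (2⁻¹ : F))) * e2 + (emb ((h ^ 2 + 4 * f) ^ k) * θ - θ ^ p) * e4
    · intro c hc _
      exact (dvd_sub (hc.trans (dvd_pow_self h (by omega))) (hc.mul_left _)).mul_left _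

/-- powers of Frobenius on a quadratic irrational -/
theorem exists_frob {p : ℕ} [Fact p.Prime] [CharP F p] {θ : LaurentSeries F} {h f : F[X]}
    (hθ : θ ^ 2 = emb h * θ + emb f) (t : ℕ) :
    ∃ A B : F[X], A ^ 2 = (h ^ 2 + 4 * f) ^ (p ^ t - 1) ∧ θ ^ p ^ t = emb A * θ + emb B ∧
      ∀ c : F[X], c ∣ h → c ∣ f → c ∣ B := by
  have := charP_laurent (F := F) p
  obtain ⟨A, B, hA, hAB, hc⟩ := exists_frob_one (p := p) hθ
  have hp : 0 < p := (Fact.out : p.Prime).pos
  induction t with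
  | zero => exact ⟨1, 0, by simp, by simp, fun c _ _ => dvd_zero c⟩
  | succ t ih =>
    obtain ⟨A', B', h1, h2, h3⟩ := ih
    refine ⟨A' ^ p * A, A' ^ p * B + B' ^ p, ?_, ?_, fun c hc1 hc2 => ?_⟩
    · have h4 : (A' ^ p * A) ^ 2 = (A' ^ 2) ^ p * A ^ 2 := by ring
      rw [h4, h1, hA, ← pow_mul, ← pow_add]
      congr 1
      have h5 : 1 ≤ p ^ t := Nat.one_le_pow _ _ hp
      obtain ⟨a, ha⟩ : ∃ a, p ^ t = a + 1 := ⟨p ^ t - 1, by omega⟩
      obtain ⟨b, hb⟩ : ∃ b, p = b + 1 := ⟨p - 1, by omega⟩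
      rw [pow_succ, ha, hb]
      simp only [Nat.add_sub_cancel]
      have : (a + 1) * (b + 1) = a * (b + 1) + b + 1 := by ring
      omega
    · rw [pow_succ, pow_mul, h2, add_pow_char, mul_pow, hAB, map_add, map_mul, map_mul, map_pow,
        map_pow]
      ring
    · exact dvd_add ((hc c hc1 hc2).mul_left _) ((h3 c hc1 hc2).trans (dvd_pow_self _ (by omega)))

theorem ne_zero_of_sq {A D : F[X]} {n : ℕ} (hD : D ≠ 0) (h : A ^ 2 = D ^ n) : A ≠ 0 := by
  rintro rfl
  rw [zero_pow two_ne_zero] at h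
  exact pow_ne_zero n hD h.symm

/-! ### scaling -/

theorem size_nonneg (x : LaurentSeries F) : 0 ≤ size x := by
  unfold size
  split <;> positivity

theorem lo_mul_emb {x : LaurentSeries F} {n : ℤ} (h : lo n x) (a : F[X]) :
    lo (n - a.natDegree) (emb a * x) := by
  have := (lo_emb' a).mul h
  refine this.mono ?_
  omega

theorem prd_scale {s : ℕ} {θ : Fin s → LaurentSeries F} {a : Fin s → F[X]} (ha : ∀ m, a m ≠ 0)
    {Q : Fin s → F[X]} (hQ : ∀ m, Q m ≠ 0) :
    prd θ (fun m => a m * Q m) = (∏ m, size (emb (a m))) * prd (fun m => emb (a m) * θ m) Q := by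
  have h1 : ∑ m, emb (a m * Q m) * θ m = ∑ m, emb (Q m) * (emb (a m) * θ m) := by
    refine Finset.sum_congr rfl fun m _ => ?_
    rw [map_mul]
    ring
  rw [prd, prd, h1, prod_size ha, prod_size hQ, prod_size fun m => mul_ne_zero (ha m) (hQ m)]
  have h2 : ∑ m, (a m * Q m).natDegree = ∑ m, (a m).natDegree + ∑ m, (Q m).natDegree := by
    rw [← Finset.sum_add_distrib]
    exact Finset.sum_congr rfl fun m _ => natDegree_mul (ha m) (hQ m)
  rw [h2, pow_add]
  ring

theorem Saving.scale {s : ℕ} {θ : Fin s → LaurentSeries F} {a : Fin s → F[X]}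
    (ha : ∀ m, a m ≠ 0) (h : Saving fun m => emb (a m) * θ m) : Saving θ := by
  obtain ⟨δ, hδ, h⟩ := h
  set c := ∏ m, size (emb (a m)) with hc
  have hc1 : 1 ≤ c := by
    rw [hc, prod_size ha]
    exact one_le_pow₀ (by norm_num)
  have hc0 : 0 < c := by linarith
  refine ⟨δ / 2, by positivity, fun ε hε => ?_⟩
  obtain ⟨Q, hQ, h1, h2⟩ := h (min (ε / c) ((c ^ (-(1 + δ / 2))) ^ 2)) (by positivity)
  refine ⟨fun m => a m * Q m, fun m => mul_ne_zero (ha m) (hQ m), ?_, ?_⟩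
  · rw [prd_scale ha hQ]
    calc c * prd (fun m => emb (a m) * θ m) Q < c * (ε / c) :=
          mul_lt_mul_of_pos_left (h1.trans_le (min_le_left _ _)) hc0
      _ = ε := by field_simp
  · rw [prd_scale ha hQ]
    set x := prd (fun m => emb (a m) * θ m) Q with hx
    have hx0 : 0 ≤ x := prd_nonneg _ _
    set N := ∏ m, size (emb (Q m)) with hN
    have hN0 : 0 < N := by
      rw [hN, prod_size hQ]
      positivity
    have h3 : ∏ m, size (emb (a m * Q m)) = c * N := by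
      rw [hc, hN, ← Finset.prod_mul_distrib]
      refine Finset.prod_congr rfl fun m _ => ?_
      rw [size_emb (ha m), size_emb (hQ m), size_emb (mul_ne_zero (ha m) (hQ m)),
        natDegree_mul (ha m) (hQ m), pow_add]
    rw [h3]
    have h4 : x ≤ (c ^ (-(1 + δ / 2))) ^ 2 := (h1.trans_le (min_le_right _ _)).le
    have h5 : N ^ (-δ) = (N ^ (-(δ / 2))) ^ 2 := by
      rw [← Real.rpow_natCast, ← Real.rpow_mul hN0.le]
      congr 1
      push_cast
      ring
    rw [h5] at h2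
    have h6 : x ≤ c ^ (-(1 + δ / 2)) * N ^ (-(δ / 2)) := by
      refine le_of_sq_le_sq ?_ (by positivity)
      calc x ^ 2 = x * x := by ring
        _ ≤ (c ^ (-(1 + δ / 2))) ^ 2 * (N ^ (-(δ / 2))) ^ 2 :=
          mul_le_mul h4 h2 hx0 (by positivity)
        _ = _ := by ring
    calc c * x ≤ c * (c ^ (-(1 + δ / 2)) * N ^ (-(δ / 2))) :=
          mul_le_mul_of_nonneg_left h6 hc0.le
      _ = (c * N) ^ (-(δ / 2)) := by
        rw [Real.mul_rpow hc0.le hN0.le, ← mul_assoc]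
        congr 1
        nth_rewrite 1 [← Real.rpow_one c]
        rw [← Real.rpow_add hc0]
        congr 1
        ring

theorem cc_scale {s : ℕ} {θ : Fin s → LaurentSeries F} {a : Fin s → F[X]}
    (ha : ∀ m, a m ≠ 0) (h : cc θ = 0) : cc (fun m => emb (a m) * θ m) = 0 := by
  rw [cc_eq_zero_iff] at h ⊢
  intro ε hε
  set E := ∑ m, (a m).natDegree with hE
  obtain ⟨Q, hQ, h1⟩ := h (ε * 2 ^ (-(((s + 1) * E : ℕ) : ℤ))) (by positivity)
  have hb : ∀ m, ∏ l ∈ Finset.univ.erase m, a l ≠ 0 := fun m =>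
    Finset.prod_ne_zero_iff.2 fun l _ => ha l
  have hb1 : ∀ m, (∏ l ∈ Finset.univ.erase m, a l) * a m = ∏ l, a l := fun m => by
    rw [mul_comm]
    exact Finset.mul_prod_erase _ _ (Finset.mem_univ m)
  have hEd : (∏ l, a l).natDegree = E := by
    rw [natDegree_prod _ _ fun l _ => ha l]
  have hb2 : ∀ m, (∏ l ∈ Finset.univ.erase m, a l).natDegree ≤ E := fun m => by
    rw [← hEd, ← hb1 m, natDegree_mul (hb m) (ha m)]
    omega
  set Q' : Fin s → F[X] := fun m => (∏ l ∈ Finset.univ.erase m, a l) * Q m with hQ'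
  have hQ'0 : ∀ m, Q' m ≠ 0 := fun m => mul_ne_zero (hb m) (hQ m)
  refine ⟨Q', hQ'0, ?_⟩
  have hsum : ∑ m, emb (Q' m) * (emb (a m) * θ m) =
      emb (∏ l, a l) * ∑ m, emb (Q m) * θ m := by
    rw [Finset.mul_sum]
    refine Finset.sum_congr rfl fun m _ => ?_
    rw [← hb1 m, hQ']
    simp only [map_mul]
    ring
  have hd : ∑ m, (Q' m).natDegree ≤ s * E + ∑ m, (Q m).natDegree := by
    calc ∑ m, (Q' m).natDegree ≤ ∑ m : Fin s, (E + (Q m).natDegree) :=
          Finset.sum_le_sum fun m _ => by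
            rw [hQ']
            simp only
            rw [natDegree_mul (hb m) (hQ m)]
            have := hb2 m
            omega
      _ = _ := by
        rw [Finset.sum_add_distrib]
        simp
  have hVV : ∀ L, V (∑ m, emb (Q m) * θ m) (L + E) →
      V (∑ m, emb (Q' m) * (emb (a m) * θ m)) L := by
    intro L hL
    rw [V_iff] at hL ⊢
    obtain ⟨P, hP⟩ := hL
    refine ⟨(∏ l, a l) * P, ?_⟩
    rw [hsum, map_mul, ← mul_sub]
    refine (lo_mul_emb hP _).mono ?_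
    rw [hEd]
    push_cast
    omega
  rcases prd_cases θ hQ with ⟨-, h2⟩ | ⟨L, h2, h3⟩
  · obtain ⟨n, hn⟩ : ∃ n : ℕ, ((1 : ℝ) / 2) ^ n < ε := exists_pow_lt_of_lt_one hε (by norm_num)
    refine (prd_le hQ'0 (hVV (∑ m, (Q' m).natDegree + n) (h2 _))).trans_lt
      (lt_of_le_of_lt ?_ hn)
    rw [one_div, inv_pow, ← zpow_natCast, ← zpow_neg]
    refine zpow_le_zpow_right₀ (by norm_num) ?_
    push_cast
    omega
  · rw [h2] at h1
    have h4 : V (∑ m, emb (Q' m) * (emb (a m) * θ m)) (L - E) := by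
      rcases le_or_gt E L with hEL | hEL
      · refine hVV _ ?_
        rw [Nat.sub_add_cancel hEL]
        exact h3
      · intro i hi1 hi2
        exfalso
        omega
    refine (prd_le hQ'0 h4).trans_lt ?_
    have h5 : (2 : ℝ) ^ (((∑ m, (Q' m).natDegree : ℕ) : ℤ) - (((L - E : ℕ) : ℤ) + 1)) ≤
        2 ^ (((∑ m, (Q m).natDegree : ℕ) : ℤ) - ((L : ℤ) + 1)) * 2 ^ (((s + 1) * E : ℕ) : ℤ) := by
      rw [← zpow_add₀ (by norm_num)]
      refine zpow_le_zpow_right₀ (by norm_num) ?_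
      have h6 : (s + 1) * E = s * E + E := by ring
      rw [h6]
      omega
    refine h5.trans_lt ?_
    calc (2 : ℝ) ^ (((∑ m, (Q m).natDegree : ℕ) : ℤ) - ((L : ℤ) + 1)) * 2 ^ (((s + 1) * E : ℕ) : ℤ)
        < ε * 2 ^ (-(((s + 1) * E : ℕ) : ℤ)) * 2 ^ (((s + 1) * E : ℕ) : ℤ) :=
          mul_lt_mul_of_pos_right h1 (by positivity)
      _ = ε := by
        rw [mul_assoc, ← zpow_add₀ (by norm_num), neg_add_cancel, zpow_zero, mul_one]

/-! ### quadratic irrationals -/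

theorem scaled_quadratic {a b c : F[X]} {θ : LaurentSeries F}
    (h : emb a * θ ^ 2 + emb b * θ + emb c = 0) :
    (emb a * θ) ^ 2 = emb (-b) * (emb a * θ) + emb (-(a * c)) := by
  rw [map_neg, map_neg, map_mul]
  linear_combination emb a * h

theorem law_quadratic {s p : ℕ} [Fact p.Prime] [CharP F p] {θ : Fin s → LaurentSeries F}
    {a b c : Fin s → F[X]} (ha : ∀ m, a m ≠ 0)
    (hθ : ∀ m, emb (a m) * θ m ^ 2 + emb (b m) * θ m + emb (c m) = 0)
    (hD : ∀ m, b m ^ 2 - 4 * a m * c m ≠ 0) :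
    (cc θ = 0 ↔ ∃ Q : Fin s → F[X], (∀ m, Q m ≠ 0) ∧
      prd (fun m => emb (a m) * θ m) Q ^ 2 * ∏ m, size (emb (b m ^ 2 - 4 * a m * c m)) < 1) ∧
      (cc θ = 0 → Saving θ) := by
  choose A B hA hAB _ using fun m =>
    exists_frob (p := p) (scaled_quadratic (hθ m)) 1
  have hD' : ∀ m, (-b m) ^ 2 + 4 * (-(a m * c m)) = b m ^ 2 - 4 * a m * c m := fun m => by ring
  simp only [hD'] at hA
  have hA0 : ∀ m, A m ≠ 0 := fun m => ne_zero_of_sq (hD m) (hA m)
  have hp : 1 < p ^ 1 := by rw [pow_one]; exact (Fact.out : p.Prime).one_lt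
  obtain ⟨h1, h2⟩ := law (t := 1) one_pos (θ := fun m => emb (a m) * θ m) hA0 hAB
  have h3 : ∀ Q : Fin s → F[X], prd (fun m => emb (a m) * θ m) Q ^ 2 *
      ∏ m, size (emb (b m ^ 2 - 4 * a m * c m)) < 1 ↔
      prd (fun m => emb (a m) * θ m) Q ^ (p ^ 1 - 1) * ∏ m, size (emb (A m)) < 1 := by
    intro Q
    set x := prd (fun m => emb (a m) * θ m) Q
    have hx : 0 ≤ x := prd_nonneg _ _
    have e1 : (∏ m, size (emb (A m))) ^ 2 =
        (∏ m, size (emb (b m ^ 2 - 4 * a m * c m))) ^ (p ^ 1 - 1) := by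
      rw [prod_size hA0, prod_size hD, ← pow_mul, ← pow_mul]
      congr 1
      rw [Finset.sum_mul, Finset.sum_mul]
      refine Finset.sum_congr rfl fun m _ => ?_
      have := congrArg natDegree (hA m)
      rw [natDegree_pow, natDegree_pow] at this
      rw [mul_comm, this, mul_comm]
    have e2 : (x ^ (p ^ 1 - 1) * ∏ m, size (emb (A m))) ^ 2 =
        (x ^ 2 * ∏ m, size (emb (b m ^ 2 - 4 * a m * c m))) ^ (p ^ 1 - 1) := by
      rw [mul_pow, mul_pow, e1]
      ring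
    have hA1 : 0 ≤ ∏ m, size (emb (A m)) := Finset.prod_nonneg fun m _ => size_nonneg _
    have hD1 : 0 ≤ ∏ m, size (emb (b m ^ 2 - 4 * a m * c m)) :=
      Finset.prod_nonneg fun m _ => size_nonneg _
    rw [← pow_lt_one_iff_of_nonneg (mul_nonneg (pow_nonneg hx _) hA1) two_ne_zero, e2,
      pow_lt_one_iff_of_nonneg (mul_nonneg (pow_nonneg hx _) hD1) (by omega)]
  refine ⟨⟨fun h => ?_, fun h => ?_⟩, fun h => Saving.scale ha (h2 (cc_scale ha h))⟩
  · obtain ⟨Q, hQ, h4⟩ := h1.1 (cc_scale ha h)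
    exact ⟨Q, hQ, (h3 Q).2 h4⟩
  · obtain ⟨Q, hQ, h4⟩ := h
    exact (Saving.scale ha (h2 (h1.2 ⟨Q, hQ, (h3 Q).1 h4⟩))).cc

/-! ### radicals -/

theorem law_radical {s p d : ℕ} [Fact p.Prime] [CharP F p] (hd : ¬ p ∣ d)
    {θ : Fin s → LaurentSeries F} {f : Fin s → F[X]} (hf : ∀ m, f m ≠ 0)
    (hθ : ∀ m, θ m ^ d = emb (f m)) :
    (cc θ = 0 ↔ ∃ Q : Fin s → F[X], (∀ m, Q m ≠ 0) ∧
      prd θ Q ^ d * ∏ m, size (emb (f m)) < 1) ∧ (cc θ = 0 → Saving θ) := by
  have hd0 : d ≠ 0 := by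
    rintro rfl
    exact hd (dvd_zero p)
  have hcop : Nat.Coprime p d := (Nat.Prime.coprime_iff_not_dvd (Fact.out : p.Prime)).2 hd
  have hp0 : 0 < p := (Fact.out : p.Prime).pos
  obtain ⟨t, ht, k, hk⟩ : ∃ t, 0 < t ∧ ∃ k, p ^ t = d * k + 1 := by
    refine ⟨Nat.totient d, Nat.totient_pos.2 (by omega), ?_⟩
    have h1 := Nat.ModEq.pow_totient hcop
    have h2 : 1 ≤ p ^ Nat.totient d := Nat.one_le_pow _ _ hp0
    have h3 := (Nat.modEq_iff_dvd' h2).1 h1.symm
    obtain ⟨k, hk⟩ := h3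
    exact ⟨k, by omega⟩
  have hp : 1 < p ^ t := Nat.one_lt_pow (by omega) (Fact.out : p.Prime).one_lt
  have hk0 : k ≠ 0 := by
    rintro rfl
    rw [hk] at hp
    simp at hp
  have hA0 : ∀ m, f m ^ k ≠ 0 := fun m => pow_ne_zero _ (hf m)
  have h4 : ∀ m, θ m ^ p ^ t = emb (f m ^ k) * θ m + emb 0 := by
    intro m
    rw [hk, pow_succ, pow_mul, hθ m, map_pow, map_zero, add_zero]
  obtain ⟨h1, h2⟩ := law ht hA0 h4
  refine ⟨h1.trans ?_, h2⟩
  refine exists_congr fun Q => and_congr_right fun _ => ?_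
  have e1 : prd θ Q ^ (p ^ t - 1) * ∏ m, size (emb (f m ^ k)) =
      (prd θ Q ^ d * ∏ m, size (emb (f m))) ^ k := by
    rw [hk, Nat.add_sub_cancel, mul_pow, ← pow_mul, prod_size hA0, prod_size hf, ← pow_mul]
    congr 2
    rw [Finset.sum_mul]
    refine Finset.sum_congr rfl fun m _ => ?_
    rw [natDegree_pow, mul_comm]
  rw [e1, pow_lt_one_iff_of_nonneg (mul_nonneg (pow_nonneg (prd_nonneg _ _) _)
    (Finset.prod_nonneg fun m _ => size_nonneg _)) hk0]

end Pool.Agent.FZL
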