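import Pool.Agent.Lib_helper55.FZL.Core

/-!
# The zero-one law
-/

set_option autoImplicit false

namespace Pool.Agent.FZL

open Polynomial

variable {F : Type} [Field F]

/-! ### `c = 0` -/

theorem prd_nonneg {s : ℕ} (θ : Fin s → LaurentSeries F) (Q : Fin s → F[X]) : 0 ≤ prd θ Q := by
  refine mul_nonneg (Finset.prod_nonneg fun m _ => ?_) (nrm_nonneg _)
  unfold size
  split <;> positivity

theorem prod_size {s : ℕ} {Q : Fin s → F[X]} (hQ : ∀ m, Q m ≠ 0) :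
    ∏ m, size (emb (Q m)) = (2 : ℝ) ^ (∑ m, (Q m).natDegree) := by
  rw [← Finset.prod_pow_eq_pow_sum]
  exact Finset.prod_congr rfl fun m _ => size_emb (hQ m)

theorem prd_le {s : ℕ} {θ : Fin s → LaurentSeries F} {Q : Fin s → F[X]} (hQ : ∀ m, Q m ≠ 0)
    {L : ℕ} (h : V (∑ m, emb (Q m) * θ m) L) :
    prd θ Q ≤ (2 : ℝ) ^ (((∑ m, (Q m).natDegree : ℕ) : ℤ) - ((L : ℤ) + 1)) := by
  rw [prd, prod_size hQ, sub_eq_add_neg, zpow_add₀ (by norm_num), zpow_natCast]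
  exact mul_le_mul_of_nonneg_left (nrm_le h) (by positivity)

/-- the first nonzero coefficient -/
theorem prd_cases {s : ℕ} (θ : Fin s → LaurentSeries F) {Q : Fin s → F[X]} (hQ : ∀ m, Q m ≠ 0) :
    (prd θ Q = 0 ∧ ∀ L, V (∑ m, emb (Q m) * θ m) L) ∨
    ∃ L : ℕ, prd θ Q = (2 : ℝ) ^ (((∑ m, (Q m).natDegree : ℕ) : ℤ) - ((L : ℤ) + 1)) ∧
      V (∑ m, emb (Q m) * θ m) L := by
  rcases nrm_cases (∑ m, emb (Q m) * θ m) with ⟨h1, h2⟩ | ⟨L, h1, h2, -⟩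
  · exact Or.inl ⟨by rw [prd, h1, mul_zero], h2⟩
  · refine Or.inr ⟨L, ?_, h2⟩
    rw [prd, h1, prod_size hQ, sub_eq_add_neg, zpow_add₀ (by norm_num), zpow_natCast]

theorem cc_nonneg {s : ℕ} (θ : Fin s → LaurentSeries F) : 0 ≤ cc θ :=
  Real.iInf_nonneg fun Q => prd_nonneg θ Q.1

theorem cc_le {s : ℕ} (θ : Fin s → LaurentSeries F) {Q : Fin s → F[X]} (hQ : ∀ m, Q m ≠ 0) :
    cc θ ≤ prd θ Q :=
  ciInf_le ⟨0, by rintro _ ⟨Q, rfl⟩; exact prd_nonneg θ Q.1⟩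
    (⟨Q, hQ⟩ : {Q : Fin s → F[X] // ∀ m, Q m ≠ 0})

theorem cc_eq_zero_iff {s : ℕ} (θ : Fin s → LaurentSeries F) : cc θ = 0 ↔
    ∀ ε > 0, ∃ Q : Fin s → F[X], (∀ m, Q m ≠ 0) ∧ prd θ Q < ε := by
  have : Nonempty {Q : Fin s → F[X] // ∀ m, Q m ≠ 0} := ⟨⟨fun _ => 1, fun _ => one_ne_zero⟩⟩
  constructor
  · intro h ε hε
    obtain ⟨Q, hQ⟩ := exists_lt_of_ciInf_lt (show (⨅ Q : {Q : Fin s → F[X] // ∀ m, Q m ≠ 0},
      prd θ Q.1) < ε by
        have : cc θ < ε := by rw [h]; exact hε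
        exact this)
    exact ⟨Q.1, Q.2, hQ⟩
  · intro h
    refine le_antisymm (le_of_forall_pos_le_add fun ε hε => ?_) (cc_nonneg θ)
    obtain ⟨Q, hQ, hlt⟩ := h ε hε
    rw [zero_add]
    exact (cc_le θ hQ).trans hlt.le

/-! ### Frobenius -/

theorem charP_laurent (p : ℕ) [CharP F p] : CharP (LaurentSeries F) p :=
  charP_of_injective_algebraMap (algebraMap F (LaurentSeries F)).injective p

theorem step {s p : ℕ} (t : ℕ) [Fact p.Prime] [CharP F p] {θ : Fin s → LaurentSeries F}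
    (Q A B : Fin s → F[X]) (hθ : ∀ m, θ m ^ p ^ t = emb (A m) * θ m + emb (B m)) {L : ℕ}
    (h : V (∑ m, emb (Q m) * θ m) L) :
    V (∑ m, emb (Q m ^ p ^ t * A m) * θ m) (p ^ t * (L + 1) - 1) := by
  have := charP_laurent (F := F) p
  obtain ⟨P, hP⟩ := V_iff.1 h
  rw [V_iff]
  refine ⟨P ^ p ^ t - ∑ m, Q m ^ p ^ t * B m, ?_⟩
  have h1 := hP.pow (p ^ t)
  have hp : 0 < p ^ t := pow_pos (Fact.out : p.Prime).pos t
  have h2 : (∑ m, emb (Q m) * θ m - emb P) ^ p ^ t =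
      ∑ m, emb (Q m ^ p ^ t * A m) * θ m - emb (P ^ p ^ t - ∑ m, Q m ^ p ^ t * B m) := by
    rw [sub_pow_char_pow, sum_pow_char_pow, map_sub, map_sum, map_pow, sub_sub_eq_add_sub,
      ← Finset.sum_add_distrib]
    congr 1
    refine Finset.sum_congr rfl fun m _ => ?_
    rw [mul_pow, hθ m, map_mul, map_mul, map_pow]
    ring
  rw [h2] at h1
  refine h1.mono ?_
  have h3 : 1 ≤ p ^ t * (L + 1) := Nat.mul_pos hp (by omega)
  push_cast [Nat.cast_sub h3]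
  ring_nf
  exact le_rfl

/-- the iteration -/
theorem iterate {s p t : ℕ} [Fact p.Prime] [CharP F p] {θ : Fin s → LaurentSeries F}
    {A B : Fin s → F[X]} (hA : ∀ m, A m ≠ 0)
    (hθ : ∀ m, θ m ^ p ^ t = emb (A m) * θ m + emb (B m)) {r : ℕ} (hr : p ^ t = r + 1)
    {Q : Fin s → F[X]} (hQ : ∀ m, Q m ≠ 0) {L : ℕ} (hV : V (∑ m, emb (Q m) * θ m) L)
    (hL : r * ∑ m, (Q m).natDegree + ∑ m, (A m).natDegree < r * (L + 1)) (k : ℕ) :
    ∃ (Q' : Fin s → F[X]) (L' : ℕ), (∀ m, Q' m ≠ 0) ∧ V (∑ m, emb (Q' m) * θ m) L' ∧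
      r * ∑ m, (Q' m).natDegree + ∑ m, (A m).natDegree =
        (r + 1) ^ k * (r * ∑ m, (Q m).natDegree + ∑ m, (A m).natDegree) ∧
      r * ∑ m, (Q' m).natDegree + ∑ m, (A m).natDegree + (r + 1) ^ k ≤ r * (L' + 1) := by
  induction k with
  | zero => exact ⟨Q, L, hQ, hV, by ring, by rw [pow_zero]; omega⟩
  | succ k ih =>
    obtain ⟨Q', L', hQ', hV', h1, h2⟩ := ih
    set E := ∑ m, (A m).natDegree with hE
    have hd : ∑ m, (Q' m ^ (r + 1) * A m).natDegree = (r + 1) * ∑ m, (Q' m).natDegree + E := by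
      rw [Finset.mul_sum, hE, ← Finset.sum_add_distrib]
      refine Finset.sum_congr rfl fun m _ => ?_
      rw [natDegree_mul (pow_ne_zero _ (hQ' m)) (hA m), natDegree_pow]
    have h3 : r * ∑ m, (Q' m ^ (r + 1) * A m).natDegree + E =
        (r + 1) * (r * ∑ m, (Q' m).natDegree + E) := by
      rw [hd]
      ring
    have h4 := step t Q' A B hθ hV'
    rw [hr] at h4
    refine ⟨fun m => Q' m ^ (r + 1) * A m, (r + 1) * (L' + 1) - 1,
      fun m => mul_ne_zero (pow_ne_zero _ (hQ' m)) (hA m), h4, ?_, ?_⟩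
    · rw [h3, h1]
      ring
    · rw [h3, Nat.sub_add_cancel (Nat.mul_pos (by omega) (by omega))]
      calc (r + 1) * (r * ∑ m, (Q' m).natDegree + E) + (r + 1) ^ (k + 1)
          = (r + 1) * (r * ∑ m, (Q' m).natDegree + E + (r + 1) ^ k) := by ring
        _ ≤ (r + 1) * (r * (L' + 1)) := Nat.mul_le_mul_left _ h2
        _ = r * ((r + 1) * (L' + 1)) := by ring

/-- Littlewood's conjecture with a power saving -/
def Saving {s : ℕ} (θ : Fin s → LaurentSeries F) : Prop :=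
  ∃ δ > (0 : ℝ), ∀ ε > (0 : ℝ), ∃ Q : Fin s → F[X], (∀ m, Q m ≠ 0) ∧ prd θ Q < ε ∧
    prd θ Q ≤ (∏ m, size (emb (Q m))) ^ (-δ)

theorem Saving.cc {s : ℕ} {θ : Fin s → LaurentSeries F} (h : Saving θ) : cc θ = 0 := by
  obtain ⟨δ, -, h⟩ := h
  rw [cc_eq_zero_iff]
  intro ε hε
  obtain ⟨Q, hQ, h1, -⟩ := h ε hε
  exact ⟨Q, hQ, h1⟩

theorem saving {s p t : ℕ} [Fact p.Prime] [CharP F p] (ht : 0 < t) {θ : Fin s → LaurentSeries F}
    {A B : Fin s → F[X]} (hA : ∀ m, A m ≠ 0)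
    (hθ : ∀ m, θ m ^ p ^ t = emb (A m) * θ m + emb (B m))
    {Q : Fin s → F[X]} (hQ : ∀ m, Q m ≠ 0) {L : ℕ} (hV : V (∑ m, emb (Q m) * θ m) L)
    (hL : (p ^ t - 1) * ∑ m, (Q m).natDegree + ∑ m, (A m).natDegree < (p ^ t - 1) * (L + 1)) :
    Saving θ := by
  have hp : 1 < p ^ t := Nat.one_lt_pow (by omega) (Fact.out : p.Prime).one_lt
  obtain ⟨r, hr⟩ : ∃ r, p ^ t = r + 1 := ⟨p ^ t - 1, by omega⟩
  rw [hr, Nat.add_sub_cancel] at hL
  have hr0 : 0 < r := by omega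
  set c := r * ∑ m, (Q m).natDegree + ∑ m, (A m).natDegree with hc
  refine ⟨1 / (c + 1), by positivity, fun ε hε => ?_⟩
  obtain ⟨n, hn⟩ : ∃ n : ℕ, ((1 : ℝ) / 2) ^ n < ε := exists_pow_lt_of_lt_one hε (by norm_num)
  obtain ⟨k, hk⟩ : ∃ k : ℕ, r * n ≤ (r + 1) ^ k :=
    ⟨r * n, (Nat.lt_pow_self (by omega)).le⟩
  obtain ⟨Q', L', hQ', hV', h1, h2⟩ := iterate hA hθ hr hQ hV hL k
  set E := ∑ m, (A m).natDegree
  set d := ∑ m, (Q' m).natDegree with hd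
  have h3 := prd_le hQ' hV'
  rw [← hd] at h3
  have hrR : (1 : ℝ) ≤ r := by exact_mod_cast hr0
  refine ⟨Q', hQ', h3.trans_lt ?_, h3.trans ?_⟩
  · refine lt_of_le_of_lt ?_ hn
    rw [one_div, inv_pow, ← zpow_natCast, ← zpow_neg]
    refine zpow_le_zpow_right₀ (by norm_num) ?_
    have h4 : r * (d + n) ≤ r * (L' + 1) := by
      rw [mul_add]
      omega
    have h5 := Nat.le_of_mul_le_mul_left h4 hr0
    omega
  · rw [prod_size hQ', ← hd, ← Real.rpow_natCast, ← Real.rpow_mul (by norm_num),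
      ← Real.rpow_intCast]
    refine Real.rpow_le_rpow_of_exponent_le (by norm_num) ?_
    push_cast
    have h4 : (r * d + E + (r + 1) ^ k : ℝ) ≤ r * (L' + 1) := by exact_mod_cast h2
    have h5 : (r * d + E : ℝ) = (r + 1) ^ k * c := by
      rw [hc]
      exact_mod_cast h1
    have h6 : (0 : ℝ) ≤ E := by positivity
    have h7 : (0 : ℝ) < c + 1 := by positivity
    have h8 : (0 : ℝ) < (r + 1) ^ k := by positivity
    have h9 : (r : ℝ) * (d * (1 / (c + 1))) ≤ (r + 1) ^ k := by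
      rw [← mul_assoc, mul_one_div, div_le_iff₀ h7]
      nlinarith
    have h10 : (r : ℝ) * (d * (1 / (c + 1))) ≤ r * (L' + 1 - d) := by
      nlinarith
    have h11 := le_of_mul_le_mul_left h10 (by linarith : (0 : ℝ) < r)
    nlinarith

/-! ### the law -/

theorem two_zpow_lt_one {n : ℤ} (h : (2 : ℝ) ^ n < 1) : n < 0 := by
  by_contra hc
  exact absurd (one_le_zpow₀ (by norm_num : (1 : ℝ) ≤ 2) (by omega : 0 ≤ n)) (not_le.2 h)

/-- the zero-one law -/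
theorem law {s p t : ℕ} [Fact p.Prime] [CharP F p] (ht : 0 < t) {θ : Fin s → LaurentSeries F}
    {A B : Fin s → F[X]} (hA : ∀ m, A m ≠ 0)
    (hθ : ∀ m, θ m ^ p ^ t = emb (A m) * θ m + emb (B m)) :
    (cc θ = 0 ↔ ∃ Q : Fin s → F[X], (∀ m, Q m ≠ 0) ∧
      prd θ Q ^ (p ^ t - 1) * ∏ m, size (emb (A m)) < 1) ∧ (cc θ = 0 → Saving θ) := by
  have hp : 1 < p ^ t := Nat.one_lt_pow (by omega) (Fact.out : p.Prime).one_lt
  have key1 : cc θ = 0 → ∃ Q : Fin s → F[X], (∀ m, Q m ≠ 0) ∧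
      prd θ Q ^ (p ^ t - 1) * ∏ m, size (emb (A m)) < 1 := by
    intro h
    rw [cc_eq_zero_iff] at h
    rw [prod_size hA]
    set E := ∑ m, (A m).natDegree
    obtain ⟨Q, hQ, h1⟩ := h (2 ^ (-((E : ℤ) + 1))) (by positivity)
    refine ⟨Q, hQ, ?_⟩
    have h2 : prd θ Q ≤ 1 := h1.le.trans (zpow_le_one_of_nonpos₀ (by norm_num) (by omega))
    have h3 : prd θ Q ^ (p ^ t - 1) ≤ prd θ Q :=
      pow_le_of_le_one (prd_nonneg θ Q) h2 (by omega)
    calc prd θ Q ^ (p ^ t - 1) * (2 : ℝ) ^ E ≤ prd θ Q * 2 ^ E :=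
          mul_le_mul_of_nonneg_right h3 (by positivity)
      _ < 2 ^ (-((E : ℤ) + 1)) * 2 ^ E := mul_lt_mul_of_pos_right h1 (by positivity)
      _ = 2 ^ (-1 : ℤ) := by
        rw [← zpow_natCast, ← zpow_add₀ (by norm_num)]
        congr 1
        ring
      _ < 1 := by norm_num
  have key2 : (∃ Q : Fin s → F[X], (∀ m, Q m ≠ 0) ∧
      prd θ Q ^ (p ^ t - 1) * ∏ m, size (emb (A m)) < 1) → Saving θ := by
    rintro ⟨Q, hQ, h⟩
    rw [prod_size hA] at h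
    rcases prd_cases θ hQ with ⟨-, h2⟩ | ⟨L, h1, h2⟩
    · refine saving ht hA hθ hQ (h2 (∑ m, (Q m).natDegree + ∑ m, (A m).natDegree)) ?_
      obtain ⟨r, hr⟩ : ∃ r, p ^ t = r + 1 + 1 := ⟨p ^ t - 2, by omega⟩
      rw [hr, Nat.add_sub_cancel]
      nlinarith [Nat.zero_le (r * ∑ m, (A m).natDegree)]
    · refine saving ht hA hθ hQ h2 ?_
      rw [h1, ← zpow_natCast, ← zpow_mul, ← zpow_natCast, ← zpow_add₀ (by norm_num)] at h
      have h3 := two_zpow_lt_one h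
      generalize p ^ t - 1 = r at h3
      generalize ∑ m, (Q m).natDegree = d at h3
      generalize ∑ m, (A m).natDegree = a at h3
      have h4 : (r * d + a : ℤ) < r * (L + 1) := by linarith
      exact_mod_cast h4
  exact ⟨⟨key1, fun h => (key2 h).cc⟩, fun h => key2 (key1 h)⟩

end Pool.Agent.FZL
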