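import Pool.Agent.Lib_helper55.FZL.Extra

/-!
# The general form of the law
-/

set_option autoImplicit false

namespace Pool.Agent.FZL

open Polynomial

variable {F : Type} [Field F]

theorem affine_scaled {r : ℕ} {θ : LaurentSeries F} {U A B : F[X]}
    (h : emb U * θ ^ (r + 2) = emb A * θ + emb B) :
    (emb U * θ) ^ (r + 2) = emb (U ^ r * A) * (emb U * θ) + emb (U ^ (r + 1) * B) := by
  simp only [map_mul, map_pow]
  linear_combination (emb U ^ (r + 1)) * h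

theorem law_affine {s p t : ℕ} [Fact p.Prime] [CharP F p] (ht : 0 < t)
    {θ : Fin s → LaurentSeries F} {U A B : Fin s → F[X]} (hU : ∀ m, U m ≠ 0)
    (hA : ∀ m, A m ≠ 0) (hθ : ∀ m, emb (U m) * θ m ^ p ^ t = emb (A m) * θ m + emb (B m)) :
    (cc θ = 0 ↔ ∃ Q : Fin s → F[X], (∀ m, Q m ≠ 0) ∧
      prd (fun m => emb (U m) * θ m) Q ^ (p ^ t - 1) *
        ∏ m, size (emb (U m ^ (p ^ t - 2) * A m)) < 1) ∧
    (cc (fun m => emb (U m) * θ m) ^ (p ^ t - 1) *
        ∏ m, size (emb (U m ^ (p ^ t - 2) * A m)) < 1 → cc θ = 0) ∧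
    (cc θ = 0 → Saving θ) := by
  have hq : 2 ≤ p ^ t := Nat.one_lt_pow (by omega) (Fact.out : p.Prime).one_lt
  obtain ⟨r, hr⟩ : ∃ r, p ^ t = r + 2 := ⟨p ^ t - 2, by omega⟩
  have hA' : ∀ m, U m ^ r * A m ≠ 0 := fun m => mul_ne_zero (pow_ne_zero r (hU m)) (hA m)
  have h1 : ∀ m, (emb (U m) * θ m) ^ p ^ t =
      emb (U m ^ r * A m) * (emb (U m) * θ m) + emb (U m ^ (r + 1) * B m) := by
    intro m
    have h2 := hθ m
    rw [hr] at h2 ⊢
    exact affine_scaled h2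
  obtain ⟨h2, h3⟩ := law ht hA' h1
  have hr2 : p ^ t - 2 = r := by omega
  rw [hr2]
  have hiff : cc θ = 0 ↔ cc (fun m => emb (U m) * θ m) = 0 :=
    ⟨cc_scale hU, fun h => (Saving.scale hU (h3 h)).cc⟩
  refine ⟨hiff.trans h2, fun h => ?_, fun h => Saving.scale hU (h3 (cc_scale hU h))⟩
  rw [hiff, h2]
  refine gap (by omega) ?_ h
  rw [prod_size hA']
  positivity

end Pool.Agent.FZL
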