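import Pool.Agent.Lib_helper55.FZL.Core

/-!
# The small root of a quadratic equation, and Kronecker's theorem
-/

set_option autoImplicit false

namespace Pool.Agent.FZL

open Polynomial

variable {F : Type} [Field F]

theorem orderTop_pos {x : LaurentSeries F} (hx : lo 1 x) : 0 < x.orderTop := by
  have h := lo_iff.1 hx
  refine lt_of_lt_of_le ?_ h
  exact_mod_cast (zero_lt_one : (0 : ℤ) < 1)

theorem lo_heval {x : LaurentSeries F} (hx : lo 1 x) (f : PowerSeries F) :
    lo 0 (PowerSeries.heval x f) := by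
  intro i hi
  rw [PowerSeries.coeff_heval]
  refine (finsum_congr fun n => ?_).trans finsum_zero
  simp only [HahnSeries.SummableFamily.coeff_apply, HahnSeries.SummableFamily.smulFamily_toFun, HahnSeries.SummableFamily.powers_toFun,
    orderTop_pos hx, if_true, HahnSeries.coeff_smul]
  rw [(hx.pow n) i (by nlinarith), smul_zero]

/-- the series of Catalan -/
theorem exists_catalan {x : LaurentSeries F} (hx : lo 1 x) :
    ∃ c : LaurentSeries F, lo 0 c ∧ c ^ 2 * x + 1 = c := by
  refine ⟨PowerSeries.heval x (PowerSeries.map (Nat.castRingHom F) PowerSeries.catalanSeries),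
    lo_heval hx _, ?_⟩
  have h := congrArg (fun f => PowerSeries.heval x (PowerSeries.map (Nat.castRingHom F) f))
    PowerSeries.catalanSeries_sq_mul_X_add_one
  simp only [map_add, map_mul, map_pow, map_one, PowerSeries.map_X] at h
  rw [PowerSeries.heval_X _ (orderTop_pos hx)] at h
  exact h

theorem lo_inv {W : LaurentSeries F} {n : ℤ} (hW : W ≠ 0) (h : W.order ≤ n) : lo (-n) W⁻¹ := by
  rw [lo_iff]
  have h1 : W⁻¹ ≠ 0 := inv_ne_zero hW
  have h2 : (W * W⁻¹).order = W.order + (W⁻¹).order := HahnSeries.order_mul hW h1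
  rw [mul_inv_cancel₀ hW, HahnSeries.order_one] at h2
  rw [← HahnSeries.order_eq_orderTop_of_ne_zero h1]
  exact_mod_cast (by omega : -n ≤ (W⁻¹).order)

/-- the small root -/
theorem small_root {W ρ : LaurentSeries F} (hW : W ≠ 0) {T : ℕ} {m : ℤ}
    (hWT : W.order ≤ -(T : ℤ)) (hρ : lo m ρ) (hTm : 1 ≤ 2 * T + m) :
    ∃ ζ : LaurentSeries F, ζ ^ 2 = W * ζ + ρ ∧ lo (T + m) ζ := by
  have h1 : lo (T : ℤ) W⁻¹ := by
    have := lo_inv hW hWT
    rwa [neg_neg] at this
  have h2 : lo 1 (-(ρ * (W⁻¹ * W⁻¹))) := by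
    refine ((hρ.mul (h1.mul h1)).neg).mono ?_
    omega
  obtain ⟨c, hc, hc2⟩ := exists_catalan h2
  refine ⟨-(ρ * W⁻¹ * c), ?_, ?_⟩
  · have h3 : W * W⁻¹ = 1 := mul_inv_cancel₀ hW
    linear_combination (-ρ) * hc2 + (ρ * c) * h3
  · refine (((hρ.mul h1).mul hc).neg).mono ?_
    omega

/-! ### Kronecker -/

theorem coeff_emb_mul (C : F[X]) (x : LaurentSeries F) (k : ℤ) :
    (emb C * x).coeff k = C.sum fun i a => a * x.coeff (k + i) := by
  induction C using Polynomial.induction_on' with
  | add p q hp hq =>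
    rw [map_add, add_mul, HahnSeries.coeff_add, hp, hq,
      Polynomial.sum_add_index _ _ _ (by simp) (by intros; ring)]
  | monomial n a =>
    rw [emb_monomial, HahnSeries.coeff_single_mul, sub_neg_eq_add,
      Polynomial.sum_monomial_index _ _ (by simp)]

theorem coeff_X_pow_mul (j : ℕ) (x : LaurentSeries F) (k : ℤ) :
    (emb (X ^ j) * x).coeff k = x.coeff (k + j) := by
  rw [← monomial_one_right_eq_X_pow, emb_monomial, HahnSeries.coeff_single_mul, sub_neg_eq_add,
    one_mul]

/-- the first coefficients of `H x` -/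
noncomputable def phi (x : LaurentSeries F) (L : ℕ) : F[X] →ₗ[F] (Fin L → F) where
  toFun H i := (emb H * x).coeff ((i : ℕ) + 1)
  map_add' H K := by
    ext i
    simp only [map_add, add_mul, HahnSeries.coeff_add, Pi.add_apply]
  map_smul' a H := by
    ext i
    rw [smul_eq_C_mul, map_mul, mul_assoc, ← monomial_zero_left, emb_monomial,
      HahnSeries.coeff_single_mul]
    simp

theorem phi_apply (x : LaurentSeries F) (L : ℕ) (H : F[X]) (i : Fin L) :
    phi x L H i = (emb H * x).coeff ((i : ℕ) + 1) := rfl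

/-- irrational series -/
def Irr (x : LaurentSeries F) : Prop := ∀ u v : F[X], emb v * x = emb u → v = 0

theorem phi_surjective {x : LaurentSeries F} (hx : Irr x) (L : ℕ) :
    Function.Surjective (phi x L) := by
  rw [← LinearMap.range_eq_top]
  by_contra hne
  obtain ⟨g, hg, hle⟩ := Submodule.exists_le_ker_of_lt_top _ (lt_top_iff_ne_top.2 hne)
  apply hg
  set c : Fin L → F := fun i => g (Pi.single i 1) with hc
  have hgc : ∀ w : Fin L → F, g w = ∑ i, c i * w i := by
    intro w
    conv_lhs => rw [← Finset.univ_sum_single w]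
    rw [map_sum]
    refine Finset.sum_congr rfl fun i _ => ?_
    rw [hc]
    simp only
    rw [show (Pi.single i (w i) : Fin L → F) = w i • Pi.single i 1 by
      rw [← Pi.single_smul, smul_eq_mul, mul_one], map_smul, smul_eq_mul, mul_comm]
  set P : F[X] := ∑ i : Fin L, monomial (i : ℕ) (c i) with hP
  have hPx : ∀ j : ℕ, (emb P * x).coeff ((j : ℤ) + 1) = 0 := by
    intro j
    have h1 : g (phi x L (X ^ j)) = 0 := LinearMap.mem_ker.1 (hle ⟨X ^ j, rfl⟩)
    rw [hgc] at h1
    rw [hP, map_sum, Finset.sum_mul, HahnSeries.coeff_sum]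
    rw [← h1]
    refine Finset.sum_congr rfl fun i _ => ?_
    rw [phi_apply, coeff_X_pow_mul, emb_monomial, HahnSeries.coeff_single_mul, sub_neg_eq_add]
    congr 2
    ring
  obtain ⟨U, hU⟩ := exists_emb (emb P * x)
  have h2 : emb P * x = emb U := by
    ext k
    rcases lt_or_ge k 1 with hk | hk
    · have := hU k hk
      rwa [HahnSeries.coeff_sub, sub_eq_zero] at this
    · obtain ⟨j, rfl⟩ : ∃ j : ℕ, k = (j : ℤ) + 1 := ⟨(k - 1).toNat, by omega⟩
      rw [hPx, coeff_emb, if_neg (by omega)]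
  have h3 : P = 0 := hx _ _ h2
  have h4 : ∀ i : Fin L, c i = 0 := by
    intro i
    have h5 := congrArg (fun Q : F[X] => Q.coeff (i : ℕ)) h3
    simp only [hP, finsetSum_coeff, coeff_zero] at h5
    rw [Finset.sum_eq_single i] at h5
    · simpa using h5
    · intro j _ hji
      rw [coeff_monomial, if_neg fun h => hji (Fin.ext h)]
    · simp
  ext w
  simp [hgc, h4]

/-- Kronecker's theorem -/
theorem kron {x : LaurentSeries F} (hx : Irr x) (z : LaurentSeries F) (L N : ℕ) :
    ∃ H : F[X], N ≤ H.natDegree ∧ V (emb H * x - z) L := by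
  obtain ⟨H, hH⟩ := phi_surjective hx L fun i => z.coeff ((i : ℕ) + 1)
  -- a multiple of a large power of `X` in the kernel
  obtain ⟨σ, hσ, hσ0⟩ : ∃ σ : F[X], phi x L (X ^ (N + H.natDegree + 1) * σ) = 0 ∧ σ ≠ 0 := by
    by_contra hcon
    push Not at hcon
    set g : F[X] →ₗ[F] (Fin L → F) :=
      (phi x L).comp (LinearMap.mulLeft F (X ^ (N + H.natDegree + 1))) with hg
    have hinj : Function.Injective g := by
      rw [injective_iff_map_eq_zero]
      intro σ h
      exact hcon σ h
    exact Polynomial.not_finite (R := F) (Module.Finite.of_injective g hinj)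
  have hdeg : (X ^ (N + H.natDegree + 1) * σ).natDegree = N + H.natDegree + 1 + σ.natDegree := by
    rw [natDegree_mul (pow_ne_zero _ X_ne_zero) hσ0, natDegree_X_pow]
  refine ⟨H + X ^ (N + H.natDegree + 1) * σ, ?_, fun i hi1 hi2 => ?_⟩
  · rw [natDegree_add_eq_right_of_natDegree_lt (by omega), hdeg]
    omega
  · obtain ⟨j, hj⟩ : ∃ j : Fin L, i = (j : ℕ) + 1 :=
      ⟨⟨(i - 1).toNat, by omega⟩, by simp only; omega⟩
    have h1 := congrFun hH j
    have h2 := congrFun hσ j
    rw [phi_apply] at h1 h2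
    rw [map_add, add_mul, HahnSeries.coeff_sub, HahnSeries.coeff_add, hj, h1, h2]
    simp

end Pool.Agent.FZL
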