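import Pool.Agent.Lib_helper55.FZL.Frob
import Pool.Agent.Lib_helper55.FZL.Small

/-!
# Quadratic partners
-/

set_option autoImplicit false

namespace Pool.Agent.FZL

open Polynomial

variable {F : Type} [Field F]

/-- linear independence of `1, θ_1, ..., θ_s` over the polynomials -/
def Indep {s : ℕ} (θ : Fin s → LaurentSeries F) : Prop :=
  ∀ (u : F[X]) (v : Fin s → F[X]), emb u + ∑ m, emb (v m) * θ m = 0 → u = 0 ∧ ∀ m, v m = 0

/-! ### integrality -/

/-- `emb` as a ring homomorphism -/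
noncomputable def embR : F[X] →+* LaurentSeries F := (emb (F := F)).toRingHom

theorem embR_apply (Q : F[X]) : embR Q = emb Q := rfl

theorem integral_affine {q : ℕ} (hq : 2 ≤ q) {θ : LaurentSeries F} {A B : F[X]}
    (h : θ ^ q = emb A * θ + emb B) : (embR (F := F)).IsIntegralElem θ := by
  refine ⟨X ^ q + -(C A * X + C B), monic_X_pow_add ?_, ?_⟩
  · rw [degree_neg]
    refine lt_of_le_of_lt degree_linear_le ?_
    exact_mod_cast (by omega : 1 < q)
  · simp only [eval₂_add, eval₂_neg, eval₂_mul, eval₂_X_pow, eval₂_C, eval₂_X, embR_apply]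
    rw [h]
    ring

theorem not_integral_inv {π : F[X]} (hπ : ¬ IsUnit π) {z : LaurentSeries F}
    (hz : emb π * z = 1) (hint : (embR (F := F)).IsIntegralElem z) : False := by
  obtain ⟨f, hf, h0⟩ := hint
  rw [eval₂_eq_sum_range, Finset.sum_range_succ, hf.coeff_natDegree, map_one, one_mul] at h0
  set n := f.natDegree
  have h1 : emb (∑ i ∈ Finset.range n, f.coeff i * π ^ (n - i) + 1) = 0 := by
    rw [map_add, map_sum, map_one]
    calc ∑ i ∈ Finset.range n, emb (f.coeff i * π ^ (n - i)) + 1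
        = emb π ^ n * (∑ i ∈ Finset.range n, embR (f.coeff i) * z ^ i + z ^ n) := by
          rw [mul_add, ← mul_pow, hz, one_pow, Finset.mul_sum]
          congr 1
          refine Finset.sum_congr rfl fun i hi => ?_
          rw [Finset.mem_range] at hi
          obtain ⟨k, hk⟩ : ∃ k, n = i + k := ⟨n - i, by omega⟩
          rw [map_mul, map_pow, embR_apply, hk, Nat.add_sub_cancel_left, pow_add]
          have h2 : emb π ^ i * z ^ i = 1 := by rw [← mul_pow, hz, one_pow]
          linear_combination (-(emb (f.coeff i) * emb π ^ k)) * h2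
      _ = 0 := by rw [h0, mul_zero]
  have h2 := emb_eq_zero h1
  apply hπ
  refine isUnit_of_dvd_one ?_
  have h3 : π ∣ ∑ i ∈ Finset.range n, f.coeff i * π ^ (n - i) := by
    refine Finset.dvd_sum fun i hi => ?_
    rw [Finset.mem_range] at hi
    exact (dvd_pow_self π (by omega)).mul_left _
  have h4 : (1 : F[X]) = -∑ i ∈ Finset.range n, f.coeff i * π ^ (n - i) := by
    linear_combination h2
  rw [h4]
  exact h3.neg_right

theorem exists_prime_not_dvd {a : F[X]} (ha : a ≠ 0) : ∃ π : F[X], Prime π ∧ ¬ π ∣ a := by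
  have h1 : (a * X + 1).natDegree = a.natDegree + 1 := by
    rw [natDegree_add_eq_left_of_natDegree_lt, natDegree_mul_X ha]
    rw [natDegree_mul_X ha]
    simp
  have h2 : ¬ IsUnit (a * X + 1) := by
    intro h
    have := natDegree_eq_zero_of_isUnit h
    omega
  have h3 : a * X + 1 ≠ 0 := by
    intro h
    rw [h] at h1
    simp at h1
  obtain ⟨π, hπ, h4⟩ := WfDvdMonoid.exists_irreducible_factor h2 h3
  refine ⟨π, hπ.prime, fun h => hπ.not_isUnit (isUnit_of_dvd_one ?_)⟩
  exact (dvd_add_right (h.mul_right X)).1 h4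

/-! ### independence -/

theorem indep_key {s p t : ℕ} [Fact p.Prime] [CharP F p]
    {θ : Fin s → LaurentSeries F} {A B : Fin s → F[X]}
    (hθ : ∀ m, θ m ^ p ^ t = emb (A m) * θ m + emb (B m)) (hI : Indep θ)
    {π : F[X]} (hπ : Prime π) (hπA : ∀ m, ¬ π ∣ A m) {y : LaurentSeries F} {A' B' : F[X]}
    (hy : y ^ p ^ t = emb A' * y + emb B') (hA' : π ∣ A') (hB' : π ∣ B')
    {u w : F[X]} {v : Fin s → F[X]} (h : emb u + ∑ m, emb (v m) * θ m + emb w * y = 0) :
    π ∣ u ∧ ∀ m, π ∣ v m := by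
  have := charP_laurent (F := F) p
  have hq : p ^ t ≠ 0 := pow_ne_zero _ (Fact.out : p.Prime).ne_zero
  obtain ⟨r, hr⟩ : ∃ r, p ^ t = r + 1 := ⟨p ^ t - 1, by omega⟩
  have h1 : emb u ^ p ^ t + ∑ m, emb (v m) ^ p ^ t * θ m ^ p ^ t + emb w ^ p ^ t * y ^ p ^ t = 0 := by
    have h2 := congrArg (fun x => x ^ p ^ t) h
    simp only [add_pow_char_pow, sum_pow_char_pow, mul_pow, zero_pow hq] at h2
    exact h2
  have h2 : emb (u ^ p ^ t + ∑ m, v m ^ p ^ t * B m + w ^ p ^ t * B' - w ^ r * A' * u) +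
      ∑ m, emb (v m ^ p ^ t * A m - w ^ r * A' * v m) * θ m = 0 := by
    have e1 : ∑ m, emb (v m) ^ p ^ t * θ m ^ p ^ t =
        ∑ m, emb (v m) ^ p ^ t * emb (A m) * θ m + ∑ m, emb (v m) ^ p ^ t * emb (B m) := by
      rw [← Finset.sum_add_distrib]
      refine Finset.sum_congr rfl fun m _ => ?_
      rw [hθ m]
      ring
    have e2 : ∑ m, emb (v m ^ p ^ t * A m - w ^ r * A' * v m) * θ m =
        ∑ m, emb (v m) ^ p ^ t * emb (A m) * θ m -
          emb w ^ r * emb A' * ∑ m, emb (v m) * θ m := by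
      rw [Finset.mul_sum, ← Finset.sum_sub_distrib]
      refine Finset.sum_congr rfl fun m _ => ?_
      simp only [map_sub, map_mul, map_pow]
      ring
    rw [e1, hy] at h1
    rw [e2]
    simp only [map_sub, map_add, map_mul, map_pow, map_sum]
    have e3 : emb w ^ p ^ t = emb w ^ r * emb w := by rw [hr, pow_succ]
    rw [e3] at h1 ⊢
    linear_combination h1 - emb w ^ r * emb A' * h
  obtain ⟨h3, h4⟩ := hI _ _ h2
  have h5 : ∀ m, π ∣ v m := by
    intro m
    have h6 : π ∣ v m ^ p ^ t * A m := by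
      rw [sub_eq_zero.1 (h4 m)]
      exact (hA'.mul_left _).mul_right _
    rcases hπ.dvd_or_dvd h6 with h7 | h7
    · exact hπ.dvd_of_dvd_pow h7
    · exact absurd h7 (hπA m)
  refine ⟨hπ.dvd_of_dvd_pow (n := p ^ t) ?_, h5⟩
  have h6 : u ^ p ^ t = w ^ r * A' * u - ∑ m, v m ^ p ^ t * B m - w ^ p ^ t * B' := by
    linear_combination h3
  rw [h6]
  refine dvd_sub (dvd_sub ((hA'.mul_left _).mul_right _) ?_) (hB'.mul_left _)
  exact Finset.dvd_sum fun m _ => ((h5 m).trans (dvd_pow_self _ hq)).mul_right _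

theorem indep_cons {s p t : ℕ} [Fact p.Prime] [CharP F p] (ht : 0 < t)
    {θ : Fin s → LaurentSeries F} {A B : Fin s → F[X]}
    (hθ : ∀ m, θ m ^ p ^ t = emb (A m) * θ m + emb (B m)) (hI : Indep θ)
    {π : F[X]} (hπ : Prime π) (hπA : ∀ m, ¬ π ∣ A m) {H₁ R : F[X]} {y : LaurentSeries F}
    (hy : y ^ 2 = emb (π ^ 2 * H₁) * y + emb (π - π ^ 2 * R)) :
    Indep (Fin.cons y θ : Fin (s + 1) → LaurentSeries F) := by
  have hq : 2 ≤ p ^ t := Nat.one_lt_pow (by omega) (Fact.out : p.Prime).one_lt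
  have hπ0 : emb π ≠ 0 := fun h => hπ.ne_zero (emb_eq_zero h)
  have hH : π ∣ π ^ 2 * H₁ := (dvd_pow_self π two_ne_zero).mul_right _
  have hG : π ∣ π - π ^ 2 * R := dvd_sub dvd_rfl ((dvd_pow_self π two_ne_zero).mul_right _)
  obtain ⟨A', B', hA', hAB', hB'⟩ := exists_frob (p := p) hy t
  have hπA' : π ∣ A' := by
    refine hπ.dvd_of_dvd_pow (n := 2) ?_
    rw [hA']
    refine dvd_pow ?_ (by omega)
    exact dvd_add (hH.trans (dvd_pow_self _ two_ne_zero)) (hG.mul_left _)
  have hπB' : π ∣ B' := hB' π hH hG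
  have hdeg : 1 ≤ π.natDegree := by
    by_contra hc
    have h1 : π.natDegree = 0 := by omega
    rw [natDegree_eq_zero] at h1
    obtain ⟨c, hc⟩ := h1
    have hc0 : c ≠ 0 := by
      rintro rfl
      rw [map_zero] at hc
      exact hπ.ne_zero hc.symm
    exact hπ.not_isUnit (by rw [← hc]; exact isUnit_C.2 (isUnit_iff_ne_zero.2 hc0))
  have main : ∀ (n : ℕ) (u : F[X]) (v : Fin s → F[X]) (w : F[X]), w.natDegree < n → w ≠ 0 →
      emb u + ∑ m, emb (v m) * θ m + emb w * y = 0 → False := by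
    intro n
    induction n with
    | zero => intro u v w h; omega
    | succ n ih =>
      intro u v w hn hw h
      obtain ⟨⟨u', hu'⟩, hv⟩ := indep_key hθ hI hπ hπA hAB' hπA' hπB' h
      choose v' hv' using hv
      have hsum : emb u + ∑ m, emb (v m) * θ m = emb π * (emb u' + ∑ m, emb (v' m) * θ m) := by
        rw [hu', mul_add, map_mul, Finset.mul_sum]
        congr 1
        refine Finset.sum_congr rfl fun m _ => ?_
        rw [hv' m, map_mul]
        ring
      by_cases hπw : π ∣ w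
      · obtain ⟨w', hw'⟩ := hπw
        have hw'0 : w' ≠ 0 := by
          rintro rfl
          exact hw (by rw [hw', mul_zero])
        refine ih u' v' w' ?_ hw'0 ?_
        · rw [hw', natDegree_mul hπ.ne_zero hw'0] at hn
          omega
        · have h1 : emb π * (emb u' + ∑ m, emb (v' m) * θ m + emb w' * y) = 0 := by
            rw [hsum, hw', map_mul] at h
            linear_combination h
          exact (mul_eq_zero.1 h1).resolve_left hπ0
      · obtain ⟨a, b, hab⟩ := hπ.irreducible.coprime_iff_not_dvd.2 hπw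
        set z := emb a * y - emb b * (emb u' + ∑ m, emb (v' m) * θ m) with hz
        have hab' : emb a * emb π + emb b * emb w = 1 := by
          rw [← map_mul, ← map_mul, ← map_add, hab, map_one]
        have h1 : y = emb π * z := by
          rw [hz]
          rw [hsum] at h
          linear_combination (-y) * hab' + emb b * h
        have h2 : emb π * (z ^ 2 - emb (π * H₁) * z + emb R) = 1 := by
          have h3 : emb π * (emb π * (z ^ 2 - emb (π * H₁) * z + emb R)) = emb π * 1 := by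
            rw [h1] at hy
            simp only [map_sub, map_mul, map_pow] at hy ⊢
            linear_combination hy
          exact mul_left_cancel₀ hπ0 h3
        refine not_integral_inv hπ.not_isUnit h2 ?_
        have hy' : (embR (F := F)).IsIntegralElem y := integral_affine le_rfl hy
        have hmap : ∀ Q : F[X], (embR (F := F)).IsIntegralElem (emb Q) := fun Q =>
          (embR (F := F)).isIntegralElem_map
        have hS : (embR (F := F)).IsIntegralElem (∑ m, emb (v' m) * θ m) := by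
          refine Finset.sum_induction _ (fun x => (embR (F := F)).IsIntegralElem x)
            (fun x y hx hy => hx.add _ hy) (RingHom.isIntegralElem_zero _) fun m _ => ?_
          exact (hmap _).mul _ (integral_affine hq (hθ m))
        have hz' : (embR (F := F)).IsIntegralElem z := by
          rw [hz]
          exact ((hmap a).mul _ hy').sub _ ((hmap b).mul _ ((hmap u').add _ hS))
        have hz2 : (embR (F := F)).IsIntegralElem (z ^ 2) := by
          rw [sq]
          exact hz'.mul _ hz'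
        exact (hz2.sub _ ((hmap _).mul _ hz')).add _ (hmap R)
  intro u v h
  rw [Fin.sum_univ_succ] at h
  simp only [Fin.cons_zero, Fin.cons_succ] at h
  have hv0 : v 0 = 0 := by
    by_contra hv0
    refine main ((v 0).natDegree + 1) u (fun m => v m.succ) (v 0) (by omega) hv0 ?_
    linear_combination h
  rw [hv0, map_zero, zero_mul, zero_add] at h
  obtain ⟨h1, h2⟩ := hI u (fun m => v m.succ) h
  exact ⟨h1, Fin.cases hv0 h2⟩

/-! ### the partner -/

theorem natDegree_le_of_lo {Q : F[X]} {n : ℕ} (h : lo (-(n : ℤ)) (emb Q)) :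
    Q.natDegree ≤ n := by
  rw [natDegree_le_iff_coeff_eq_zero]
  intro k hk
  have h1 := h (-(k : ℤ)) (by omega)
  rw [coeff_emb, if_pos (by omega)] at h1
  simpa using h1

theorem exists_lo (x : LaurentSeries F) : ∃ K : ℕ, lo (-(K : ℤ)) x := by
  refine ⟨x.order.natAbs, fun i hi => HahnSeries.coeff_eq_zero_of_lt_order ?_⟩
  omega

theorem Indep.irr {s : ℕ} {θ : Fin (s + 1) → LaurentSeries F} (hI : Indep θ)
    {Q : Fin (s + 1) → F[X]} (hQ : Q 0 ≠ 0) (P : F[X]) :
    Irr (∑ m, emb (Q m) * θ m - emb P) := by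
  intro u v h
  have h1 : emb (-(u + v * P)) + ∑ m, emb (v * Q m) * θ m = 0 := by
    have h2 : ∑ m, emb (v * Q m) * θ m = emb v * ∑ m, emb (Q m) * θ m := by
      rw [Finset.mul_sum]
      refine Finset.sum_congr rfl fun m _ => ?_
      rw [map_mul]
      ring
    rw [h2, map_neg, map_add, map_mul]
    linear_combination h
  have h2 := (hI _ _ h1).2 0
  exact (mul_eq_zero.1 h2).resolve_right hQ

theorem partner {s p t : ℕ} [Fact p.Prime] [CharP F p] (ht : 0 < t)
    {θ : Fin (s + 1) → LaurentSeries F} {A B : Fin (s + 1) → F[X]} (hA : ∀ m, A m ≠ 0)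
    (hθ : ∀ m, θ m ^ p ^ t = emb (A m) * θ m + emb (B m)) (hI : Indep θ)
    (z : LaurentSeries F) (n : ℕ) :
    ∃ (H G : F[X]) (y : LaurentSeries F), y ^ 2 = emb H * y + emb G ∧ H ^ 2 + 4 * G ≠ 0 ∧
      lo n (y - z) ∧
      Indep (Fin.cons y θ : Fin (s + 2) → LaurentSeries F) ∧
      Saving (Fin.cons y θ : Fin (s + 2) → LaurentSeries F) := by
  have hq : 2 ≤ p ^ t := Nat.one_lt_pow (by omega) (Fact.out : p.Prime).one_lt
  -- the target
  have hirr0 : Irr (θ 0) := by
    have h1 := hI.irr (Q := Pi.single 0 1) (by simp) 0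
    rw [map_zero, sub_zero, Finset.sum_eq_single 0] at h1
    · simpa using h1
    · intro m _ hm
      rw [Pi.single_eq_of_ne hm, map_zero, zero_mul]
    · simp
  obtain ⟨Q₀, hQ₀, hV₀⟩ := kron hirr0 (z - ∑ m : Fin s, θ m.succ) n 1
  obtain ⟨P₀, hP₀⟩ := V_iff.1 hV₀
  set Q : Fin (s + 1) → F[X] := Fin.cons Q₀ fun _ => 1 with hQ
  have hQ0 : Q 0 ≠ 0 := by
    rw [hQ, Fin.cons_zero]
    rintro rfl
    simp at hQ₀
  have hQne : ∀ m, Q m ≠ 0 := Fin.cases hQ0 fun m => by
    rw [hQ, Fin.cons_succ]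
    exact one_ne_zero
  set x := ∑ m, emb (Q m) * θ m - emb P₀ with hx
  have hxz : lo (n + 1) (x - z) := by
    have h1 : x - z = emb Q₀ * θ 0 - (z - ∑ m : Fin s, θ m.succ) - emb P₀ := by
      rw [hx, Fin.sum_univ_succ]
      simp only [hQ, Fin.cons_zero, Fin.cons_succ, map_one, one_mul]
      ring
    rw [h1]
    exact hP₀
  have hxirr : Irr x := hI.irr hQ0 P₀
  -- the prime
  obtain ⟨π, hπ, hπA⟩ := exists_prime_not_dvd (Finset.prod_ne_zero_iff.2 fun m _ => hA m :
    ∏ m, A m ≠ 0)
  have hπA' : ∀ m, ¬ π ∣ A m := fun m h =>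
    hπA (h.trans (Finset.dvd_prod_of_mem _ (Finset.mem_univ m)))
  have hπ0 : emb π ≠ 0 := fun h => hπ.ne_zero (emb_eq_zero h)
  -- the constants
  set d := ∑ m, (Q m).natDegree with hd
  set a := ∑ m, (A m).natDegree with ha
  obtain ⟨K, hK⟩ := exists_lo x
  obtain ⟨H₁, hH₁, hV₁⟩ := kron hxirr ((x ^ 2 - emb π) / emb π ^ 2)
    (d + a + 2 * π.natDegree) (K + n + 1)
  obtain ⟨R, hR⟩ := V_iff.1 hV₁
  set H := π ^ 2 * H₁ with hH
  set G := π - π ^ 2 * R with hG
  have hH₁0 : H₁ ≠ 0 := by
    rintro rfl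
    simp at hH₁
  have hHd : H.natDegree = 2 * π.natDegree + H₁.natDegree := by
    rw [hH, natDegree_mul (pow_ne_zero _ hπ.ne_zero) hH₁0, natDegree_pow]
  have hHK : K + n + 1 ≤ H.natDegree := by omega
  have hH0 : H ≠ 0 := by
    intro h
    rw [h] at hHK
    simp at hHK
  have hρ : lo ((d + a : ℕ) + 1) (emb H * x + emb G - x ^ 2) := by
    have h1 : emb H * x + emb G - x ^ 2 =
        emb (π ^ 2) * (emb H₁ * x - (x ^ 2 - emb π) / emb π ^ 2 - emb R) := by
      rw [hH, hG, map_sub, map_mul, map_mul, map_pow]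
      field_simp
      ring
    rw [h1]
    refine (lo_mul_emb hR _).mono ?_
    rw [natDegree_pow]
    push_cast
    omega
  -- the root
  have hWc : (emb H - 2 * x).coeff (-(H.natDegree : ℤ)) ≠ 0 := by
    have h2x : (2 * x).coeff (-(H.natDegree : ℤ)) = 0 := by
      rw [two_mul, HahnSeries.coeff_add, hK _ (by omega), add_zero]
    rw [HahnSeries.coeff_sub, h2x, sub_zero, coeff_emb, if_pos (by omega)]
    simpa using hH0
  have hW0 : emb H - 2 * x ≠ 0 := by
    intro h
    rw [h] at hWc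
    exact hWc rfl
  obtain ⟨ζ, hζ, hζl⟩ := small_root hW0 (HahnSeries.order_le_of_coeff_ne_zero hWc) hρ (by omega)
  have hy : (x + ζ) ^ 2 = emb H * (x + ζ) + emb G := by linear_combination hζ
  -- the discriminant
  have hGd : G.natDegree ≤ H.natDegree + K := by
    apply natDegree_le_of_lo
    have h1 : emb G = (emb H * x + emb G - x ^ 2) + x ^ 2 - emb H * x := by ring
    rw [h1]
    refine ((hρ.mono ?_).add ((hK.pow 2).mono ?_)).sub (((lo_emb' H).mul hK).mono ?_)
    · push_cast
      omega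
    · push_cast
      omega
    · push_cast
      omega
  have hDd : (H ^ 2 + 4 * G).natDegree = 2 * H.natDegree := by
    have h1 : (4 * G).natDegree ≤ H.natDegree + K := by
      have h2 : (4 : F[X]) * G = C 4 * G := by rw [map_ofNat]
      rw [h2]
      exact (natDegree_C_mul_le _ _).trans hGd
    rw [natDegree_add_eq_left_of_natDegree_lt, natDegree_pow]
    rw [natDegree_pow]
    omega
  have hD0 : H ^ 2 + 4 * G ≠ 0 := by
    intro h
    rw [h] at hDd
    simp only [natDegree_zero] at hDd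
    omega
  refine ⟨H, G, x + ζ, hy, hD0, ?_, indep_cons ht hθ hI hπ hπA' hy, ?_⟩
  · have h1 : x + ζ - z = (x - z) + ζ := by ring
    rw [h1]
    exact (hxz.mono (by omega)).add (hζl.mono (by omega))
  obtain ⟨A', B', hA', hAB', -⟩ := exists_frob (p := p) hy t
  have hA'0 : A' ≠ 0 := ne_zero_of_sq hD0 hA'
  have hA'd : A'.natDegree = (p ^ t - 1) * H.natDegree := by
    have h1 := congrArg natDegree hA'
    rw [natDegree_pow, natDegree_pow, hDd] at h1
    have h2 : (p ^ t - 1) * (2 * H.natDegree) = 2 * ((p ^ t - 1) * H.natDegree) := by ring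
    omega
  refine saving ht (A := Fin.cons A' A) (B := Fin.cons B' B) (Q := Fin.cons (-1) Q)
    (L := H.natDegree + (d + a)) (Fin.cases hA'0 hA) (Fin.cases hAB' hθ)
    (Fin.cases (by rw [Fin.cons_zero]; exact neg_ne_zero.2 one_ne_zero) hQne) ?_ ?_
  · rw [V_iff]
    refine ⟨P₀, ?_⟩
    rw [Fin.sum_univ_succ]
    simp only [Fin.cons_zero, Fin.cons_succ]
    have h1 : emb (-1) * (x + ζ) + ∑ m, emb (Q m) * θ m - emb P₀ = -ζ := by
      rw [map_neg, map_one, hx]
      ring
    rw [h1]
    refine hζl.neg.mono ?_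
    push_cast
    omega
  · have e1 : ∑ m, ((Fin.cons (-1) Q : Fin (s + 2) → F[X]) m).natDegree = d := by
      rw [Fin.sum_univ_succ, Fin.cons_zero, natDegree_neg, natDegree_one, zero_add]
      simp only [Fin.cons_succ]
      exact hd.symm
    have e2 : ∑ m, ((Fin.cons A' A : Fin (s + 2) → F[X]) m).natDegree =
        (p ^ t - 1) * H.natDegree + a := by
      rw [Fin.sum_univ_succ, Fin.cons_zero, hA'd]
      simp only [Fin.cons_succ]
      rw [ha]
    rw [e1, e2]
    obtain ⟨r, hr⟩ : ∃ r, p ^ t - 1 = r + 1 := ⟨p ^ t - 2, by omega⟩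
    rw [hr]
    nlinarith [Nat.zero_le (r * a)]

/-- an affine Frobenius element -/
def Affine (q : ℕ) (θ : LaurentSeries F) : Prop :=
  ∃ U A B : F[X], U ≠ 0 ∧ A ≠ 0 ∧ emb U * θ ^ q = emb A * θ + emb B

theorem partner_affine {s p t : ℕ} [Fact p.Prime] [CharP F p] (ht : 0 < t)
    {θ : Fin (s + 1) → LaurentSeries F} (hθ : ∀ m, Affine (p ^ t) (θ m)) (hI : Indep θ)
    (z : LaurentSeries F) (n : ℕ) :
    ∃ (H G : F[X]) (y : LaurentSeries F), y ^ 2 = emb H * y + emb G ∧ H ^ 2 + 4 * G ≠ 0 ∧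
      lo n (y - z) ∧
      Indep (Fin.cons y θ : Fin (s + 2) → LaurentSeries F) ∧
      Saving (Fin.cons y θ : Fin (s + 2) → LaurentSeries F) := by
  have hq : 2 ≤ p ^ t := Nat.one_lt_pow (by omega) (Fact.out : p.Prime).one_lt
  choose U A B hU hA hAB using hθ
  obtain ⟨r, hr⟩ : ∃ r, p ^ t = r + 2 := ⟨p ^ t - 2, by omega⟩
  have h1 : ∀ m, (emb (U m) * θ m) ^ p ^ t =
      emb (U m ^ r * A m) * (emb (U m) * θ m) + emb (U m ^ (r + 1) * B m) := by
    intro m
    have h2 := hAB m
    rw [hr] at h2 ⊢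
    simp only [map_mul, map_pow]
    linear_combination (emb (U m) ^ (r + 1)) * h2
  have h3 : Indep fun m => emb (U m) * θ m := by
    intro u v h
    have h4 : emb u + ∑ m, emb (v m * U m) * θ m = 0 := by
      rw [← h]
      congr 1
      refine Finset.sum_congr rfl fun m _ => ?_
      rw [map_mul]
      ring
    obtain ⟨h5, h6⟩ := hI _ _ h4
    exact ⟨h5, fun m => (mul_eq_zero.1 (h6 m)).resolve_right (hU m)⟩
  obtain ⟨H, G, y, hy, hyD, hyz, hyI, hyS⟩ := partner ht
    (fun m => mul_ne_zero (pow_ne_zero r (hU m)) (hA m)) h1 h3 z n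
  refine ⟨H, G, y, hy, hyD, hyz, ?_, ?_⟩
  · intro u v h
    set c := ∏ m, U m with hc
    have hc0 : c ≠ 0 := Finset.prod_ne_zero_iff.2 fun m _ => hU m
    have hb1 : ∀ m, (∏ l ∈ Finset.univ.erase m, U l) * U m = c := fun m => by
      rw [mul_comm]
      exact Finset.mul_prod_erase _ _ (Finset.mem_univ m)
    have h4 := hyI (c * u) (Fin.cons (c * v 0) fun m =>
      (∏ l ∈ Finset.univ.erase m, U l) * v m.succ) (by
        rw [Fin.sum_univ_succ] at h ⊢
        simp only [Fin.cons_zero, Fin.cons_succ] at h ⊢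
        have h5 : ∑ m : Fin (s + 1), emb ((∏ l ∈ Finset.univ.erase m, U l) * v m.succ) *
            (emb (U m) * θ m) = emb c * ∑ m : Fin (s + 1), emb (v m.succ) * θ m := by
          rw [Finset.mul_sum]
          refine Finset.sum_congr rfl fun m _ => ?_
          rw [← hb1 m, map_mul, map_mul]
          ring
        rw [h5, map_mul, map_mul]
        linear_combination emb c * h)
    obtain ⟨h5, h6⟩ := h4
    refine ⟨(mul_eq_zero.1 h5).resolve_left hc0, Fin.cases ?_ fun m => ?_⟩
    · have := h6 0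
      rw [Fin.cons_zero] at this
      exact (mul_eq_zero.1 this).resolve_left hc0
    · have := h6 m.succ
      rw [Fin.cons_succ] at this
      refine (mul_eq_zero.1 this).resolve_left ?_
      exact Finset.prod_ne_zero_iff.2 fun l _ => hU l
  · refine Saving.scale (a := Fin.cons 1 U) (Fin.cases one_ne_zero hU) ?_
    convert hyS using 1
    funext m
    refine Fin.cases ?_ (fun m => ?_) m
    · simp only [Fin.cons_zero, map_one, one_mul]
    · simp only [Fin.cons_succ]

end Pool.Agent.FZL
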